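import Pool.Agent.Lib.MP_d92bf9_co.Defs

namespace Pool.Agent.Lib.MP_d92bf9_co

open SimpleGraph

/-- Integer layouts. -/
def BW {V : Type} (G : SimpleGraph V) (b : ℕ) : Prop :=
  ∃ τ : V → ℤ, Function.Injective τ ∧ ∀ u v, G.Adj u v → τ u ≤ τ v + b

lemma bw_set_nonempty (V : Type) [Finite V] (G : SimpleGraph V) :
    {k : ℕ | ∃ σ : V ≃ Fin (Nat.card V), ∀ u v, G.Adj u v → (σ u : ℕ) ≤ (σ v : ℕ) + k}.Nonempty :=
  ⟨Nat.card V, Finite.equivFin V, fun u v _ => by
    have := (Finite.equivFin V u).2
    omega⟩

lemma bw_le_iff {V : Type} [Finite V] (G : SimpleGraph V) (b : ℕ) :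
    bandwidth V G ≤ b ↔ BW G b := by
  classical
  constructor
  · intro h
    obtain ⟨σ, hσ⟩ := Nat.sInf_mem (bw_set_nonempty V G)
    refine ⟨fun v => ((σ v : ℕ) : ℤ), ?_, fun u v huv => ?_⟩
    · intro u v huv
      have : (σ u : ℕ) = σ v := by simpa using huv
      exact σ.injective (Fin.ext this)
    · have h1 := hσ u v huv
      have h2 : (σ u : ℕ) ≤ σ v + b := h1.trans (Nat.add_le_add_left h _)
      beta_reduce
      exact_mod_cast h2
  · rintro ⟨τ, hτ, h⟩
    have := Fintype.ofFinite V
    let r : V → ℕ := fun v => (Finset.univ.filter fun x => τ x < τ v).card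
    have hr : ∀ v, r v < Nat.card V := by
      intro v
      rw [Nat.card_eq_fintype_card]
      apply Finset.card_lt_card
      refine ⟨Finset.subset_univ _, fun hc => ?_⟩
      have := hc (Finset.mem_univ v)
      simp at this
    have hmono : ∀ u v, τ u < τ v → r u < r v := by
      intro u v huv
      apply Finset.card_lt_card
      refine ⟨fun x hx => ?_, fun hc => ?_⟩
      · simp only [Finset.mem_filter, Finset.mem_univ, true_and] at hx ⊢
        exact hx.trans huv
      · have := hc (show u ∈ Finset.univ.filter fun x => τ x < τ v by simpa using huv)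
        simp at this
    let s : V → Fin (Nat.card V) := fun v => ⟨r v, hr v⟩
    have hs : Function.Injective s := by
      intro u v huv
      have h1 : r u = r v := congrArg Fin.val huv
      rcases lt_trichotomy (τ u) (τ v) with k | k | k
      · exact absurd h1 (hmono _ _ k).ne
      · exact hτ k
      · exact absurd h1 (hmono _ _ k).ne'
    have hb : Function.Bijective s := by
      rw [Nat.bijective_iff_injective_and_card]
      exact ⟨hs, by simp⟩
    apply Nat.sInf_le
    refine ⟨Equiv.ofBijective s hb, fun u v huv => ?_⟩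
    change r u ≤ r v + b
    have h1 := h u v huv
    have h2 : (Finset.univ.filter fun x => τ x < τ u) ⊆
        (Finset.univ.filter fun x => τ x < τ v) ∪
          (Finset.univ.filter fun x => τ x ∈ Finset.Ico (τ v) (τ v + b)) := by
      intro x hx
      simp only [Finset.mem_filter, Finset.mem_univ, true_and, Finset.mem_union,
        Finset.mem_Ico] at hx ⊢
      omega
    have h3 : (Finset.univ.filter fun x => τ x ∈ Finset.Ico (τ v) (τ v + b)).card ≤ b := by
      have := Finset.card_le_card_of_injOn (s := Finset.univ.filter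
        fun x => τ x ∈ Finset.Ico (τ v) (τ v + b)) (t := Finset.Ico (τ v) (τ v + b)) τ
        (fun x hx => by simpa using hx) hτ.injOn
      simpa using this
    exact (Finset.card_le_card h2).trans ((Finset.card_union_le _ _).trans
      (Nat.add_le_add_left h3 _))

lemma BW.mono {V : Type} {G H : SimpleGraph V} {b c : ℕ} (h : BW G b) (hH : H ≤ G) (hc : b ≤ c) :
    BW H c := by
  obtain ⟨τ, h1, h2⟩ := h
  refine ⟨τ, h1, fun u v huv => ?_⟩
  have := h2 u v (hH huv)
  omega

lemma BW.add_edge {V : Type} {G : SimpleGraph V} {b : ℕ} (e : Sym2 V)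
    (h : BW (G.deleteEdges {e}) b) : BW G (2 * b + 1) := by
  obtain ⟨τ, h1, h2⟩ := h
  induction e using Sym2.ind with
  | h p q =>
  let i := min (τ p) (τ q)
  let j := max (τ p) (τ q)
  refine ⟨fun x => if τ x - i ≤ j - τ x then 2 * (τ x - i) else 2 * (j - τ x) + 1, ?_, ?_⟩
  · intro x y hxy
    apply h1
    simp only at hxy
    split_ifs at hxy <;> omega
  · intro u v huv
    by_cases he : s(u, v) = s(p, q)
    · have : (u = p ∧ v = q) ∨ (u = q ∧ v = p) := Sym2.eq_iff.mp he
      simp only [i, j]
      rcases this with ⟨rfl, rfl⟩ | ⟨rfl, rfl⟩ <;> push_cast <;> split_ifs <;> omega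
    · have a1 := h2 u v (by simp [huv, he])
      have a2 := h2 v u (by
        rw [deleteEdges_adj]
        exact ⟨huv.symm, fun hc => he (Sym2.eq_swap.trans hc)⟩)
      push_cast
      split_ifs <;> omega

lemma BW.add_edges {V : Type} (F : Finset (Sym2 V)) : ∀ {G : SimpleGraph V} {b : ℕ},
    BW (G.deleteEdges F) b → BW G (2 ^ F.card * (b + 1)) := by
  classical
  have key : ∀ (F : Finset (Sym2 V)) {G : SimpleGraph V} {b : ℕ},
      BW (G.deleteEdges F) b → BW G (2 ^ F.card * (b + 1) - 1) := by
    intro F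
    induction F using Finset.induction_on with
    | empty => intro G b h; simpa using h
    | insert e F he ih =>
      intro G b h
      have h1 : BW ((G.deleteEdges {e}).deleteEdges F) b := by
        rw [deleteEdges_deleteEdges]
        simpa using h
      have h2 := (ih h1).add_edge e
      refine h2.mono le_rfl ?_
      rw [Finset.card_insert_of_notMem he, pow_succ]
      have : 0 < 2 ^ F.card * (b + 1) := by positivity
      have e2 : 2 ^ F.card * 2 * (b + 1) = 2 * (2 ^ F.card * (b + 1)) := by ring
      omega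
  intro G b h
  exact (key F h).mono le_rfl (Nat.sub_le _ _)

/-- Number of edges to delete to reach bandwidth at most `c`. -/
noncomputable def delParam (c : ℕ) : Param := fun V _ G =>
  sInf {k : ℕ | ∃ F : Finset (Sym2 V), F.card = k ∧ BW (G.deleteEdges F) c}

lemma del_nonempty (c : ℕ) (V : Type) [Finite V] (G : SimpleGraph V) :
    {k : ℕ | ∃ F : Finset (Sym2 V), F.card = k ∧ BW (G.deleteEdges F) c}.Nonempty := by
  have := Fintype.ofFinite (Sym2 V)
  refine ⟨_, Finset.univ, rfl, fun v => ((Finite.equivFin V v : ℕ) : ℤ), ?_, ?_⟩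
  · intro u v huv
    have : (Finite.equivFin V u : ℕ) = Finite.equivFin V v := by simpa using huv
    exact (Finite.equivFin V).injective (Fin.ext this)
  · intro u v huv
    simp at huv

lemma del_spec (c : ℕ) (V : Type) [Finite V] (G : SimpleGraph V) :
    ∃ F : Finset (Sym2 V), F.card = delParam c V G ∧ BW (G.deleteEdges F) c :=
  Nat.sInf_mem (del_nonempty c V G)

lemma del_le {c : ℕ} {V : Type} [Finite V] {G : SimpleGraph V} (F : Finset (Sym2 V))
    (h : BW (G.deleteEdges F) c) : delParam c V G ≤ F.card :=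
  Nat.sInf_le ⟨F, rfl, h⟩

lemma del_zero {c : ℕ} {V : Type} [Finite V] {G : SimpleGraph V} (h : BW G c) :
    delParam c V G ≤ 0 := del_le ∅ (by simpa using h)

lemma del_iso_le (c : ℕ) (V W : Type) [Finite V] [Finite W] (G : SimpleGraph V)
    (H : SimpleGraph W) (φ : G ≃g H) : delParam c V G ≤ delParam c W H := by
  classical
  obtain ⟨F, hF, τ, h1, h2⟩ := del_spec c W H
  rw [← hF]
  refine (del_le (F.image (Sym2.map φ.symm)) ⟨fun v => τ (φ v), h1.comp φ.injective, ?_⟩).trans
    Finset.card_image_le
  intro u v huv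
  rw [deleteEdges_adj] at huv
  apply h2
  rw [deleteEdges_adj]
  refine ⟨φ.map_adj_iff.mpr huv.1, fun hc => huv.2 ?_⟩
  simp only [Finset.coe_image, Set.mem_image]
  exact ⟨_, hc, by simp⟩

lemma del_isoInv (c : ℕ) : IsoInvariant (delParam c) := by
  rintro V W _ _ G H ⟨φ⟩
  exact le_antisymm (del_iso_le c V W G H φ) (del_iso_le c W V H G φ.symm)

lemma del_continuous (c : ℕ) : ContinuousParam (delParam c) := by
  classical
  refine ⟨fun k => k + 1, ?_, ?_⟩
  · intro V _ G e _
    obtain ⟨F, hF, h⟩ := del_spec c V (G.deleteEdges {e})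
    rw [← hF]
    refine (del_le (insert e F) ?_).trans (Finset.card_insert_le _ _)
    rw [deleteEdges_deleteEdges] at h
    simpa using h
  · intro V _ G v hv
    obtain ⟨F, hF, τ, h1, h2⟩ := del_spec c {w : V // w ≠ v} (G.induce {w : V | w ≠ v})
    refine le_trans ?_ (Nat.le_succ _)
    refine le_trans ?_ hF.le
    obtain ⟨z, hz⟩ := (Set.finite_range τ).exists_notMem
    refine (del_le (F.image (Sym2.map Subtype.val))
      ⟨fun x => if h : x = v then z else τ ⟨x, h⟩, ?_, ?_⟩).trans Finset.card_image_le
    · intro x y hxy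
      by_cases hx : x = v <;> by_cases hy : y = v
      · rw [hx, hy]
      · simp only [dif_pos hx, dif_neg hy] at hxy
        exact absurd ⟨_, hxy.symm⟩ hz
      · simp only [dif_pos hy, dif_neg hx] at hxy
        exact absurd ⟨_, hxy⟩ hz
      · simp only [dif_neg hy, dif_neg hx] at hxy
        exact congrArg Subtype.val (h1 hxy)
    · intro x y hxy
      rw [deleteEdges_adj] at hxy
      have hx : x ≠ v := by
        rintro rfl
        exact hv _ hxy.1
      have hy : y ≠ v := by
        rintro rfl
        exact hv _ hxy.1.symm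
      simp only [dif_neg hy, dif_neg hx]
      apply h2
      rw [deleteEdges_adj]
      refine ⟨hxy.1, fun hc => hxy.2 ?_⟩
      simp only [Finset.coe_image, Set.mem_image]
      exact ⟨_, hc, by simp⟩

lemma bw_boundedBy_del (c : ℕ) : BoundedBy bandwidth (delParam c) := by
  refine ⟨fun k => 2 ^ k * (c + 1), fun V _ G => ?_⟩
  obtain ⟨F, hF, h⟩ := del_spec c V G
  rw [bw_le_iff, ← hF]
  exact BW.add_edges F h

/-- Disjoint union of cliques. -/
def cliques (N m : ℕ) : SimpleGraph (Fin N × Fin m) where
  Adj a b := a.1 = b.1 ∧ a ≠ b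
  symm := ⟨fun _ _ h => ⟨h.1.symm, h.2.symm⟩⟩
  loopless := ⟨fun _ h => h.2 rfl⟩

lemma cliques_bw (N c : ℕ) : BW (cliques N (c + 2)) (c + 1) := by
  refine ⟨fun a => (a.1 : ℤ) * (c + 2) + a.2, ?_, ?_⟩
  · rintro ⟨a, b⟩ ⟨a', b'⟩ h
    have h1 : (a : ℕ) * (c + 2) + b = a' * (c + 2) + b' := by
      simp only at h
      exact_mod_cast h
    have hb := b.2
    have hb' := b'.2
    have h2 : (a : ℕ) = a' := by
      have e1 : ((a : ℕ) * (c + 2) + b) / (c + 2) = a := by
        rw [Nat.add_comm, Nat.add_mul_div_right _ _ (by omega), Nat.div_eq_of_lt hb]; simp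
      have e2 : ((a' : ℕ) * (c + 2) + b') / (c + 2) = a' := by
        rw [Nat.add_comm, Nat.add_mul_div_right _ _ (by omega), Nat.div_eq_of_lt hb']; simp
      rw [← e1, ← e2, h1]
    rw [h2] at h1
    exact Prod.ext (Fin.ext h2) (Fin.ext (Nat.add_left_cancel h1))
  · rintro ⟨a, b⟩ ⟨a', b'⟩ ⟨h, -⟩
    simp only at h
    subst h
    have hb := b.2
    simp only
    push_cast
    omega

lemma cliques_del (N c : ℕ) : N ≤ delParam c _ (cliques N (c + 2)) := by
  classical
  obtain ⟨F, hF, τ, h1, h2⟩ := del_spec c _ (cliques N (c + 2))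
  rw [← hF]
  have key : ∀ i : Fin N, ∃ a b : Fin (c + 2), s((i, a), (i, b)) ∈ F := by
    intro i
    by_contra hc
    push Not at hc
    obtain ⟨a, -, ha⟩ := Finset.exists_min_image Finset.univ (fun a : Fin (c + 2) => τ (i, a))
      ⟨0, Finset.mem_univ _⟩
    have := Finset.card_le_card_of_injOn (s := (Finset.univ : Finset (Fin (c + 2))))
      (t := Finset.Icc (τ (i, a)) (τ (i, a) + c)) (fun b => τ (i, b)) (by
        intro b _
        simp only [Finset.coe_Icc, Set.mem_Icc]
        refine ⟨ha b (Finset.mem_univ _), ?_⟩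
        by_cases hab : b = a
        · subst hab; omega
        · apply h2
          rw [deleteEdges_adj]
          exact ⟨⟨rfl, by simpa using hab⟩, by simpa using hc b a⟩) (by
        intro b _ b' _ h
        simpa using h1 h)
    simp at this
    omega
  choose a b hab using key
  have := Finset.card_le_card_of_injOn (s := (Finset.univ : Finset (Fin N))) (t := F)
    (fun i => s((i, a i), (i, b i))) (fun i _ => hab i) (by
      intro i _ j _ h
      have := Sym2.eq_iff.mp h
      rcases this with k | k
      · exact congrArg Prod.fst k.1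
      · exact congrArg Prod.fst k.1)
  simpa using this

lemma del_not_boundedBy (c : ℕ) : ¬ BoundedBy (delParam c) bandwidth := by
  rintro ⟨h, hh⟩
  obtain ⟨M, hM⟩ : ∃ M, ∀ k ≤ c + 1, h k ≤ M :=
    ⟨(Finset.range (c + 2)).sup h, fun k hk => Finset.le_sup (Finset.mem_range.mpr (by omega))⟩
  have h1 := hh _ (cliques (M + 1) (c + 2))
  have h2 := cliques_del (M + 1) c
  have h3 := hM _ ((bw_le_iff _ _).mpr (cliques_bw (M + 1) c))
  omega

end Pool.Agent.Lib.MP_d92bf9_co
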