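import Pool.Agent.Lib.MP_d92bf9_co.Forest

namespace Pool.Agent.Lib.MP_d92bf9_co

open SimpleGraph Equiv Equiv.Perm

variable {V : Type}

lemma exists_entry {P : ℕ → Prop} {a : ℕ} (ha : ¬ P a) : ∀ b, a ≤ b → P b →
    ∃ k, a ≤ k ∧ k < b ∧ ¬ P k ∧ P (k + 1) := by
  intro b hab
  induction b, hab using Nat.le_induction with
  | base => intro h; exact absurd h ha
  | succ b hab ih =>
    intro h
    by_cases hb : P b
    · obtain ⟨k, h1, h2, h3⟩ := ih hb
      exact ⟨k, h1, by omega, h3⟩
    · exact ⟨b, hab, by omega, hb, h⟩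

/-- The contour of one tree of the forest, with non-crossing chords. -/
structure Contour {G : SimpleGraph V} (B : BFS G) (r : V) where
  x : ℕ → G.Dart
  N : ℕ
  hr : B.dep r = 0
  x0 : (x 0).fst = r
  step : ∀ k, (x (k + 1)).fst = (B.aT (x k)).fst
  inj : ∀ p < N, ∀ q < N, x p = x q → p = q
  surj : ∀ d : G.Dart, B.root d.fst = r → ∃ k < N, x k = d
  nocross : ∀ i k p q, i < p → p < k → k < N → q < N → ¬ B.Tree (x i) → x k = (x i).symm →
    ¬ B.Tree (x p) → x q = (x p).symm → i ≤ q ∧ q ≤ k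

lemma exists_contour [Finite V] {G : SimpleGraph V} (hG : Planar G) (B : BFS G) (e : G.Dart)
    (he : B.dep e.fst = 0) : Nonempty (Contour B e.fst) := by
  classical
  obtain ⟨σ, hσ, heul⟩ := hG
  have := Fintype.ofFinite G.Dart
  set τ := σ * B.aT with hτ
  have hper : e ∈ Function.periodicPts τ := τ.injective.mem_periodicPts e
  have hN := Function.minimalPeriod_pos_of_mem_periodicPts hper
  have hinj : ∀ p < Function.minimalPeriod τ e, ∀ q < Function.minimalPeriod τ e,
      τ^[p] e = τ^[q] e → p = q := fun p hp q hq h =>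
    Function.iterate_injOn_Iio_minimalPeriod hp hq h
  refine ⟨⟨fun k => τ^[k] e, Function.minimalPeriod τ e, he, rfl, fun k => ?_, hinj, ?_, ?_⟩⟩
  · rw [Function.iterate_succ_apply']
    exact B.tau_fst hσ _
  · intro d hd
    have h1 : SameCycle τ e d := B.same_root hσ (by rw [hd, B.root_of_dep _ he])
    obtain ⟨n, hn⟩ := h1.exists_nat_pow_eq
    refine ⟨n % Function.minimalPeriod τ e, Nat.mod_lt _ hN, ?_⟩
    rw [Function.iterate_mod_minimalPeriod_eq, ← hn, Perm.iterate_eq_pow]
  · intro i k p q h1 h2 h3 h4 h5 h6 h7 h8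
    by_contra hc
    have hns := cross_not_sameCycle τ (fun k => τ^[k] e)
      (fun k => Function.iterate_succ_apply' _ _ _) _ hinj (i := i) (k := k) (p := p) (q := q)
      (by omega) h3 h1 h2.le h4 (by omega)
    have a1 : B.aN (τ^[i] e) = τ^[k] e := by rw [B.aN_neg h5, h6]
    have a2 : B.aN (τ^[p] e) = τ^[q] e := by rw [B.aN_neg h7, h8]
    have m := numCycles_cross τ B.aN B.aN_aN (a := τ^[i] e) (b := τ^[p] e)
      (by rw [B.aN_neg h5]; exact Dart.symm_ne _) (by rw [B.aN_neg h7]; exact Dart.symm_ne _)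
      (fun k => by have := hinj _ (by omega) _ (by omega) k; omega)
      (by rw [a1]; exact fun k => by have := hinj _ (by omega) _ (by omega) k; omega)
      (by rw [a1, a2]; exact hns)
    have m1 := B.count_cycles hσ
    have m2 := B.count_support
    rw [B.rev_eq, ← mul_assoc] at heul
    rw [← hτ] at m1 heul
    omega

namespace Contour

variable {G : SimpleGraph V} {B : BFS G} {r : V} (C : Contour B r)

lemma root_x (k : ℕ) : B.root (C.x k).fst = r := by
  induction k with
  | zero => rw [C.x0, B.root_of_dep _ C.hr]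
  | succ k ih =>
    rw [C.step]
    by_cases h : B.Tree (C.x k)
    · rw [B.aT_pos h]; exact (B.root_adj _ _ (C.x k).adj).symm.trans ih
    · rw [B.aT_neg h, ih]

lemma not_anc_zero {w : V} (hw : B.dep w ≠ 0) : ¬ B.Anc w (C.x 0).fst := by
  intro h
  have := h.1
  rw [C.x0, C.hr] at this
  omega

lemma interval {w : V} (hw : B.dep w ≠ 0) {p q s : ℕ} (h1 : p ≤ q) (h2 : q ≤ s) (h3 : s < C.N)
    (hp : B.Anc w (C.x p).fst) (hs : B.Anc w (C.x s).fst) : B.Anc w (C.x q).fst := by
  by_contra hq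
  obtain ⟨k, a1, a2, a3, a4⟩ := exists_entry (P := fun k => B.Anc w (C.x k).fst)
    (C.not_anc_zero hw) p (Nat.zero_le _) hp
  obtain ⟨l, b1, b2, b3, b4⟩ := exists_entry (P := fun k => B.Anc w (C.x k).fst) hq s h2 hs
  rw [C.step] at a4 b4
  have := C.inj k (by omega) l (by omega) ((B.entry' hw a3 a4).trans (B.entry' hw b3 b4).symm)
  omega

def I (i j : ℕ) : Set V :=
  {v | B.dep v ≠ 0 ∧ B.root v = r ∧ ∀ k < C.N, B.Anc v (C.x k).fst → i < k ∧ k < j}

def Unc (i j : ℕ) : Prop :=
  ∀ p q, i < p → p < j → q < C.N → ¬ B.Tree (C.x p) → C.x q = (C.x p).symm → i ≤ q ∧ q ≤ j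

lemma exists_pos {v : V} (h1 : B.dep v ≠ 0) (h2 : B.root v = r) :
    ∃ k < C.N, B.Anc v (C.x k).fst := by
  obtain ⟨k, hk, e⟩ := C.surj (B.upd v h1) h2
  exact ⟨k, hk, by rw [e]; exact B.anc_refl v⟩

lemma bdry {i j : ℕ} (hu : C.Unc i j) {v y : V} (hv : v ∈ C.I i j) (hy : y ∉ C.I i j)
    (h : G.Adj v y) : B.Anc y (C.x i).fst ∨ B.Anc y (C.x j).fst := by
  obtain ⟨v1, v2, v3⟩ := hv
  have hry : B.root y = r := (B.root_adj _ _ h).symm.trans v2
  by_cases hy0 : B.dep y = 0
  · left
    have := B.anc_root (C.x i).fst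
    rwa [(C.root_x i).trans (hry.symm.trans (B.root_of_dep y hy0))] at this
  obtain ⟨p, hp, hpe⟩ := C.surj ⟨(v, y), h⟩ v2
  obtain ⟨hp1, hp2⟩ := v3 p hp (by rw [hpe]; exact B.anc_refl v)
  have h1 : ∃ q < C.N, i ≤ q ∧ q ≤ j ∧ B.Anc y (C.x q).fst := by
    by_cases ht : B.Tree (C.x p)
    · rw [hpe] at ht
      rcases ht with ⟨k1, k2⟩ | ⟨k1, k2⟩
      · refine ⟨p, hp, hp1.le, hp2.le, ?_⟩
        rw [hpe]
        change B.Anc y v
        rw [show y = B.par v from k2]
        exact B.anc_par_left v1 (B.anc_refl v)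
      · exfalso
        apply hy
        refine ⟨hy0, hry, fun k hk ha => v3 k hk ?_⟩
        rw [show v = B.par y from k2]
        exact B.anc_par_left hy0 ha
    · obtain ⟨q, hq, hqe⟩ := C.surj (C.x p).symm (by rw [hpe]; exact hry)
      obtain ⟨a1, a2⟩ := hu p q hp1 hp2 hq ht hqe
      refine ⟨q, hq, a1, a2, ?_⟩
      rw [hqe, hpe]
      exact B.anc_refl y
  obtain ⟨q, q1, q2, q3, q4⟩ := h1
  have h2 : ∃ k < C.N, B.Anc y (C.x k).fst ∧ (k ≤ i ∨ j ≤ k) := by
    by_contra hc
    push Not at hc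
    exact hy ⟨hy0, hry, hc⟩
  obtain ⟨k, k1, k2, k3 | k3⟩ := h2
  · exact Or.inl (C.interval hy0 k3 q2 q1 k2 q4)
  · exact Or.inr (C.interval hy0 q3 k3 k1 q4 k2)

lemma small {i j : ℕ} (hu : C.Unc i j) : Small G B.dep (C.I i j) := by
  apply small_of_bdry (fun l => ![B.up (C.x i).fst (l - 1), B.up (C.x i).fst l,
    B.up (C.x i).fst (l + 1), B.up (C.x j).fst (l - 1), B.up (C.x j).fst l,
    B.up (C.x j).fst (l + 1)])
  intro v hv y hy h
  have a1 := B.lay v y h
  have a2 := B.lay y v h.symm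
  have a3 : B.dep v - 1 = B.dep y ∨ B.dep v = B.dep y ∨ B.dep v + 1 = B.dep y := by omega
  rcases C.bdry hu hv hy h with k | k <;> rcases a3 with e | e | e
  · exact ⟨0, by rw [e]; exact k.2⟩
  · exact ⟨1, by rw [e]; exact k.2⟩
  · exact ⟨2, by rw [e]; exact k.2⟩
  · exact ⟨3, by rw [e]; exact k.2⟩
  · exact ⟨4, by rw [e]; exact k.2⟩
  · exact ⟨5, by rw [e]; exact k.2⟩

lemma split {i j : ℕ} (hj : j ≤ C.N) (hij : i + 1 < j) (hu : C.Unc i j) :
    ∃ k, i < k ∧ k < j ∧ C.Unc i k ∧ C.Unc k j := by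
  by_cases h : ∃ k, i < k ∧ k < j ∧ ¬ B.Tree (C.x i) ∧ C.x k = (C.x i).symm
  · obtain ⟨k, h1, h2, h3, h4⟩ := h
    refine ⟨k, h1, h2, fun p q a1 a2 a3 a4 a5 => ?_, fun p q a1 a2 a3 a4 a5 => ?_⟩
    · exact C.nocross i k p q a1 a2 (by omega) a3 h3 h4 a4 a5
    · obtain ⟨b1, b2⟩ := hu p q (by omega) a2 a3 a4 a5
      refine ⟨?_, b2⟩
      by_contra hc
      rcases b1.lt_or_eq with b | b
      · have := C.nocross i k q p b (by omega) (by omega) (by omega) h3 h4
          (by rw [a5, B.tree_symm]; exact a4) (by rw [a5, Dart.symm_symm])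
        omega
      · have := C.inj p (by omega) k (by omega) (by rw [h4, b, a5, Dart.symm_symm])
        omega
  · refine ⟨i + 1, by omega, hij, fun p q a1 a2 => by omega, fun p q a1 a2 a3 a4 a5 => ?_⟩
    obtain ⟨b1, b2⟩ := hu p q (by omega) a2 a3 a4 a5
    refine ⟨?_, b2⟩
    by_contra hc
    have b : i = q := by omega
    apply h
    refine ⟨p, by omega, a2, ?_, ?_⟩
    · rw [b, a5, B.tree_symm]; exact a4
    · rw [b, a5, Dart.symm_symm]

lemma proc [Finite V] : ∀ (n i j : ℕ), j - i = n → j ≤ C.N → C.Unc i j →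
    Proc G B.dep (C.I i j) := by
  intro n
  induction n using Nat.strong_induction_on with
  | _ n ih =>
  intro i j hn hj hu
  by_cases hij : i + 1 < j
  · obtain ⟨k, h1, h2, h3, h4⟩ := C.split hj hij hu
    refine combine B.lay (ih _ (by omega) i k rfl (by omega) h3) (ih _ (by omega) k j rfl hj h4)
      (C.small h3) (C.small h4) ?_ ?_ ?_ ?_
    · rw [Set.disjoint_left]
      rintro v ⟨v1, v2, v3⟩ ⟨-, -, v4⟩
      obtain ⟨p, hp, ha⟩ := C.exists_pos v1 v2
      have := v3 p hp ha
      have := v4 p hp ha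
      omega
    · rintro v ⟨v1, v2, v3⟩
      exact ⟨v1, v2, fun p hp ha => by have := v3 p hp ha; omega⟩
    · rintro v ⟨v1, v2, v3⟩
      exact ⟨v1, v2, fun p hp ha => by have := v3 p hp ha; omega⟩
    · have key : ∀ v ∈ C.I i j, v ∉ C.I i k → v ∉ C.I k j → B.Anc v (C.x k).fst := by
        rintro v ⟨v1, v2, v3⟩ a1 a2
        have b1 : ∃ p < C.N, B.Anc v (C.x p).fst ∧ k ≤ p := by
          by_contra hc
          push Not at hc
          exact a1 ⟨v1, v2, fun p hp ha => ⟨(v3 p hp ha).1, hc p hp ha⟩⟩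
        have b2 : ∃ p < C.N, B.Anc v (C.x p).fst ∧ p ≤ k := by
          by_contra hc
          push Not at hc
          exact a2 ⟨v1, v2, fun p hp ha => ⟨hc p hp ha, (v3 p hp ha).2⟩⟩
        obtain ⟨p, p1, p2, p3⟩ := b1
        obtain ⟨q, q1, q2, q3⟩ := b2
        exact C.interval v1 q3 p3 p1 q2 p2
      intro x hx y hy a1 a2 a3 a4 hl
      exact B.anc_unique (key x hx a1 a2) (key y hy a3 a4) hl
  · have : C.I i j = ∅ := by
      rw [Set.eq_empty_iff_forall_notMem]
      rintro v ⟨v1, v2, v3⟩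
      obtain ⟨p, hp, ha⟩ := C.exists_pos v1 v2
      have := v3 p hp ha
      omega
    rw [this]
    exact proc_empty _ _

end Contour

lemma small_closed {G : SimpleGraph V} {lay : V → ℕ} {I : Set V}
    (h : ∀ x ∈ I, ∀ y, G.Adj x y → y ∈ I) : Small G lay I :=
  ⟨fun _ => 0, fun _ => by norm_num, fun x hx y hy hl _ =>
    ⟨hx, hy, hl, fun z hz => ⟨fun k => absurd (h x hx z k) hz, fun k => absurd (h y hy z k) hz⟩⟩⟩

lemma proc_comp [Finite V] {G : SimpleGraph V} (hG : Planar G) (B : BFS G) (r : V) :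
    Proc G B.dep {v | B.root v = r} := by
  have se : Small G B.dep ∅ := small_closed (fun x hx => absurd hx (Set.notMem_empty x))
  by_cases h : ∃ e : G.Dart, e.fst = r ∧ B.dep r = 0
  · obtain ⟨e, rfl, he⟩ := h
    obtain ⟨C⟩ := exists_contour hG B e he
    have hu : C.Unc 0 C.N := fun p q _ _ h3 _ _ => ⟨Nat.zero_le _, h3.le⟩
    refine combine B.lay (C.proc _ 0 C.N rfl le_rfl hu) (proc_empty _ _) (C.small hu) se
      (Set.disjoint_empty _) (fun v hv => hv.2.1) (Set.empty_subset _) ?_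
    have key : ∀ v, B.root v = e.fst → v ∉ C.I 0 C.N → v = e.fst := by
      intro v h1 h2
      by_cases h0 : B.dep v = 0
      · rw [← h1, B.root_of_dep v h0]
      · exfalso
        apply h2
        refine ⟨h0, h1, fun k hk ha => ⟨?_, hk⟩⟩
        rcases Nat.eq_zero_or_pos k with rfl | k0
        · exact absurd ha (C.not_anc_zero h0)
        · exact k0
    intro x hx y hy a1 _ a3 _ _
    rw [key x hx a1, key y hy a3]
  · refine combine B.lay (proc_empty _ _) (proc_empty _ _) se se (Set.disjoint_empty _)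
      (Set.empty_subset _) (Set.empty_subset _) ?_
    have key : ∀ (n : ℕ) v, B.dep v = n → B.root v = r → v = r := by
      intro n
      induction n with
      | zero => intro v h0 h1; rw [← h1, B.root_of_dep v h0]
      | succ n ih =>
        intro v h0 h1
        exfalso
        have h2 := ih (B.par v) (by rw [B.par_dep]; omega) (by rw [B.root_par, h1])
        exact h ⟨(B.upd v (by omega)).symm, h2, by rw [← h1]; exact B.dep_root v⟩
    intro x hx y hy _ _ _ _ _
    rw [key _ x rfl hx, key _ y rfl hy]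

theorem planar_reducible (V : Type) [Finite V] [Nonempty V] (G : SimpleGraph V)
    (hG : Planar G) : Reducible (delParam 258) 0 V ⟨G, ⊥⟩ := by
  classical
  obtain ⟨B⟩ := exists_bfs G
  have key : ∀ A : Finset V, Proc G B.dep {v | B.root v ∈ A} := by
    intro A
    induction A using Finset.induction_on with
    | empty => simpa using proc_empty G B.dep
    | insert r A hr ih =>
      refine combine B.lay ih (proc_comp hG B r) (small_closed ?_) (small_closed ?_) ?_ ?_ ?_ ?_
      · intro x hx y h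
        change B.root y ∈ A
        rw [← B.root_adj _ _ h]; exact hx
      · intro x hx y h
        change B.root y = r
        rw [← B.root_adj _ _ h]; exact hx
      · rw [Set.disjoint_left]
        intro v h1 h2
        apply hr
        rw [← show B.root v = r from h2]; exact h1
      · intro v hv; exact Finset.mem_insert_of_mem hv
      · intro v hv
        change B.root v ∈ insert r A
        rw [show B.root v = r from hv]; exact Finset.mem_insert_self _ _
      · intro x hx y _ a1 a2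
        rcases Finset.mem_insert.mp hx with k | k
        · exact absurd k a2
        · exact absurd k a1
  have := Fintype.ofFinite V
  have h := key Finset.univ
  simp only [Finset.mem_univ, Set.ofPred_true] at h
  exact reducible_of_proc B.lay h

end Pool.Agent.Lib.MP_d92bf9_co
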