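import Pool.Agent.Lib.MP_d92bf9_co.Defs

namespace Pool.Agent.Lib.MP_d92bf9_co

open Equiv Equiv.Perm

variable {D : Type}

lemma exit_lemma [Finite D] (ρ : Perm D) (S : Set D) {x : D} (hx : x ∉ S) (hx' : ρ x ∈ S) :
    ∃ y ∈ S, ρ y ∉ S ∧ SameCycle ρ x y := by
  by_contra hc
  push Not at hc
  have h1 : ∀ n : ℕ, (ρ ^ (n + 1)) x ∈ S := by
    intro n
    induction n with
    | zero => simpa using hx'
    | succ n ih =>
      by_contra h
      rw [pow_succ', Perm.mul_apply] at h
      exact hc _ ih h ⟨((n + 1 : ℕ) : ℤ), by rw [zpow_natCast]⟩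
  have h2 := h1 (orderOf ρ - 1)
  rw [Nat.sub_add_cancel (orderOf_pos ρ), pow_orderOf_eq_one] at h2
  exact hx h2

lemma sameCycle_ind [Finite D] {π : Perm D} {R : D → D → Prop} (hR : Equivalence R)
    (h : ∀ x, R x (π x)) {x y : D} (hxy : SameCycle π x y) : R x y := by
  obtain ⟨n, rfl⟩ := hxy.exists_nat_pow_eq
  clear hxy
  induction n with
  | zero => exact hR.refl _
  | succ n ih => rw [pow_succ', Perm.mul_apply]; exact hR.trans ih (h _)

lemma sameCycle_equiv (π : Perm D) : Equivalence (SameCycle π) :=
  ⟨SameCycle.refl π, SameCycle.symm, SameCycle.trans⟩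

lemma sameCycle_step (π : Perm D) (x : D) : SameCycle π x (π x) := ⟨1, by simp⟩

lemma numCycles_merge [Finite D] [DecidableEq D] {π : Perm D} {a b : D}
    (h : ¬ SameCycle π a b) : numCycles (π * swap a b) + 1 ≤ numCycles π := by
  set π' := π * swap a b with hπ'
  have hab : SameCycle π' a b := by
    obtain ⟨y, hy, hy2, hy3⟩ := exit_lemma π' {x | SameCycle π b x} (x := a)
      (fun k => h k.symm) (by
        simp only [hπ', Perm.mul_apply, swap_apply_left]
        exact sameCycle_step π b)
    by_cases hyb : y = b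
    · rwa [hyb] at hy3
    · exfalso
      apply hy2
      have hya : y ≠ a := by
        rintro rfl
        exact h (SameCycle.symm hy)
      simp only [hπ', Perm.mul_apply, swap_apply_of_ne_of_ne hya hyb]
      exact SameCycle.trans hy (sameCycle_step π y)
  have hsub : ∀ x y, SameCycle π x y → SameCycle π' x y := by
    intro x y
    apply sameCycle_ind (sameCycle_equiv π')
    intro x
    have e : π x = π' (swap a b x) := by simp [hπ']
    rw [e]
    refine SameCycle.trans ?_ (sameCycle_step π' _)
    by_cases hxa : x = a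
    · rw [hxa, swap_apply_left]; exact hab
    · by_cases hxb : x = b
      · rw [hxb, swap_apply_right]; exact hab.symm
      · rw [swap_apply_of_ne_of_ne hxa hxb]
  let g : Quotient (SameCycle.setoid π) → Quotient (SameCycle.setoid π') :=
    Quotient.map' id hsub
  have hg : Function.Surjective g := by
    intro q
    induction q using Quotient.ind with
    | _ x => exact ⟨Quotient.mk _ x, rfl⟩
  have hg2 : ¬ Function.Injective g := by
    intro k
    have : g (Quotient.mk _ a) = g (Quotient.mk _ b) := Quotient.sound hab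
    exact h (Quotient.exact (k this))
  have := Fintype.ofFinite (Quotient (SameCycle.setoid π))
  have := Fintype.ofFinite (Quotient (SameCycle.setoid π'))
  unfold numCycles
  rw [Nat.card_eq_fintype_card, Nat.card_eq_fintype_card]
  exact Fintype.card_lt_of_surjective_not_injective g hg hg2

lemma numCycles_swap_le [Finite D] [DecidableEq D] (π : Perm D) (a b : D) :
    numCycles (π * swap a b) ≤ numCycles π + 1 := by
  classical
  set π' := π * swap a b with hπ'
  let R : D → D → Prop := fun x y => SameCycle π' x y ∨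
    ((SameCycle π' x a ∨ SameCycle π' x b) ∧ (SameCycle π' y a ∨ SameCycle π' y b))
  have hR : Equivalence R := by
    refine ⟨fun x => Or.inl (SameCycle.refl _ _), ?_, ?_⟩
    · rintro x y (k | k)
      · exact Or.inl k.symm
      · exact Or.inr ⟨k.2, k.1⟩
    · rintro x y z (k | k) (l | l)
      · exact Or.inl (k.trans l)
      · exact Or.inr ⟨l.1.imp k.trans k.trans, l.2⟩
      · exact Or.inr ⟨k.1, k.2.imp l.symm.trans l.symm.trans⟩
      · exact Or.inr ⟨k.1, l.2⟩
  have hsub : ∀ x y, SameCycle π x y → R x y := by
    intro x y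
    apply sameCycle_ind hR
    intro x
    have e : π x = π' (swap a b x) := by simp [hπ']
    rw [e]
    refine hR.trans ?_ (Or.inl (sameCycle_step π' _))
    by_cases hxa : x = a
    · rw [hxa, swap_apply_left]
      exact Or.inr ⟨Or.inl (SameCycle.refl _ _), Or.inr (SameCycle.refl _ _)⟩
    · by_cases hxb : x = b
      · rw [hxb, swap_apply_right]
        exact Or.inr ⟨Or.inr (SameCycle.refl _ _), Or.inl (SameCycle.refl _ _)⟩
      · rw [swap_apply_of_ne_of_ne hxa hxb]; exact hR.refl _
  let g : Quotient (SameCycle.setoid π') → Option (Quotient (SameCycle.setoid π)) := fun q =>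
    if SameCycle π' q.out b then none else some (Quotient.mk _ q.out)
  have hg : Function.Injective g := by
    intro q r hqr
    have key : SameCycle π' q.out r.out := by
      simp only [g] at hqr
      split_ifs at hqr with h1 h2 h2
      · exact h1.trans h2.symm
      · rcases hsub _ _ (Quotient.exact (Option.some.inj hqr)) with k | k
        · exact k
        · exact (k.1.resolve_right h1).trans (k.2.resolve_right h2).symm
    rw [← q.out_eq, ← r.out_eq]
    exact Quotient.sound key
  unfold numCycles
  rw [← Finite.card_option]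
  exact Nat.card_le_card_of_injective g hg

lemma invol_split [Fintype D] [DecidableEq D] {β : Perm D} (hβ : ∀ x, β (β x) = x) {a : D}
    (ha : β a ≠ a) :
    (∀ x, (swap a (β a) * β) ((swap a (β a) * β) x) = x) ∧
      (swap a (β a) * β).support.card + 2 = β.support.card ∧
      (∀ x, x ≠ a → x ≠ β a → (swap a (β a) * β) x = β x) := by
  have h3 : ∀ x, x ≠ a → x ≠ β a → (swap a (β a) * β) x = β x := by
    intro x h1 h2
    rw [Perm.mul_apply, swap_apply_of_ne_of_ne]
    · intro k; apply h2; rw [← k, hβ]
    · intro k; exact h1 (β.injective k)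
  have h4 : (swap a (β a) * β) a = a := by simp
  have h5 : (swap a (β a) * β) (β a) = β a := by simp [hβ]
  refine ⟨fun x => ?_, ?_, h3⟩
  · by_cases h1 : x = a
    · rw [h1, h4, h4]
    · by_cases h2 : x = β a
      · rw [h2, h5, h5]
      · rw [h3 x h1 h2, h3, hβ]
        · intro k; apply h2; rw [← k, hβ]
        · intro k; exact h1 (β.injective k)
  · have : (swap a (β a) * β).support = (β.support.erase a).erase (β a) := by
      ext x
      simp only [mem_support, Finset.mem_erase]
      by_cases h1 : x = a
      · rw [h1, h4]; simp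
      · by_cases h2 : x = β a
        · rw [h2, h5]; simp
        · rw [h3 x h1 h2]; simp [h1, h2]
    have m1 : a ∈ β.support := mem_support.mpr ha
    have m2 : β a ∈ β.support.erase a := by
      rw [Finset.mem_erase, mem_support, hβ]
      exact ⟨ha, ha.symm⟩
    rw [this]
    have := Finset.card_erase_add_one m1
    have := Finset.card_erase_add_one m2
    omega

lemma numCycles_invol_le [Fintype D] [DecidableEq D] : ∀ (n : ℕ) (π β : Perm D),
    (∀ x, β (β x) = x) → β.support.card = n → 2 * numCycles (π * β) ≤ 2 * numCycles π + n := by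
  intro n
  induction n using Nat.strong_induction_on with
  | _ n ih =>
  intro π β hβ hn
  by_cases h : ∀ a, β a = a
  · have : β = 1 := Equiv.ext h
    rw [this, mul_one]; omega
  · push Not at h
    obtain ⟨a, ha⟩ := h
    obtain ⟨k1, k2, -⟩ := invol_split hβ ha
    have e : π * β = (π * swap a (β a)) * (swap a (β a) * β) := by
      rw [mul_assoc, swap_mul_self_mul]
    have h1 := ih _ (by omega) (π * swap a (β a)) _ k1 rfl
    have h2 := numCycles_swap_le π a (β a)
    rw [e]
    omega

lemma numCycles_cross [Fintype D] [DecidableEq D] (π β : Perm D) (hβ : ∀ x, β (β x) = x)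
    {a b : D} (ha : β a ≠ a) (hb : β b ≠ b) (h1 : b ≠ a) (h2 : b ≠ β a)
    (hc : ¬ SameCycle (π * swap a (β a)) b (β b)) :
    2 * numCycles (π * β) + 4 ≤ 2 * numCycles π + β.support.card := by
  obtain ⟨k1, k2, k3⟩ := invol_split hβ ha
  set β' := swap a (β a) * β with hβ'
  have hb' : β' b = β b := k3 b h1 h2
  obtain ⟨l1, l2, -⟩ := invol_split k1 (a := b) (by rw [hb']; exact hb)
  have e : π * β = ((π * swap a (β a)) * swap b (β' b)) * (swap b (β' b) * β') := by
    rw [mul_assoc, swap_mul_self_mul, hβ', mul_assoc, swap_mul_self_mul]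
  have m1 := numCycles_invol_le _ ((π * swap a (β a)) * swap b (β' b)) _ l1 rfl
  have m2 := numCycles_swap_le π a (β a)
  have m3 := numCycles_merge hc
  rw [e]
  rw [hb'] at m1 l2 ⊢
  omega

lemma cross_not_sameCycle [Finite D] [DecidableEq D] (τ : Perm D) (x : ℕ → D)
    (hx : ∀ k, x (k + 1) = τ (x k)) (N : ℕ) (hinj : ∀ p < N, ∀ q < N, x p = x q → p = q)
    {i k p q : ℕ} (hik : i < k) (hk : k < N) (hp1 : i < p) (hp2 : p ≤ k) (hq : q < N)
    (hq2 : q ≤ i ∨ k < q) : ¬ SameCycle (τ * swap (x i) (x k)) (x p) (x q) := by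
  intro h
  obtain ⟨n, hn⟩ := h.exists_nat_pow_eq
  have key : ∀ n : ℕ, ∃ m, i < m ∧ m ≤ k ∧ ((τ * swap (x i) (x k)) ^ n) (x p) = x m := by
    intro n
    induction n with
    | zero => exact ⟨p, hp1, hp2, rfl⟩
    | succ n ih =>
      obtain ⟨m, h1, h2, h3⟩ := ih
      rw [pow_succ', Perm.mul_apply, h3, Perm.mul_apply]
      by_cases hm : m = k
      · exact ⟨i + 1, by omega, by omega, by rw [hm, swap_apply_right, hx]⟩
      · refine ⟨m + 1, by omega, by omega, ?_⟩
        rw [swap_apply_of_ne_of_ne, hx]
        · intro e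
          have := hinj m (by omega) i (by omega) e
          omega
        · intro e
          exact hm (hinj m (by omega) k hk e)
  obtain ⟨m, h1, h2, h3⟩ := key n
  have := hinj m (by omega) q hq (h3.symm.trans hn)
  omega

end Pool.Agent.Lib.MP_d92bf9_co
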