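import Mathlib

/-!
Graph parameters, bandwidth, continuity, trigraph reduction sequences, and planarity
(rotation systems of Euler genus zero).
-/

namespace Pool.Agent.Lib.MP_d92bf9_co

/-- A map from finite simple graphs to natural numbers. -/
abbrev Param : Type 1 := ∀ (V : Type) [Finite V], SimpleGraph V → ℕ

/-- Isomorphism invariance. -/
def IsoInvariant (f : Param) : Prop :=
  ∀ (V W : Type) [Finite V] [Finite W] (G : SimpleGraph V) (H : SimpleGraph W),
    Nonempty (G ≃g H) → f V G = f W H

/-- Bandwidth: the least `k` such that some bijective numbering of the vertices moves by at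
most `k` along every edge. -/
noncomputable def bandwidth : Param := fun V _ G =>
  sInf {k : ℕ | ∃ σ : V ≃ Fin (Nat.card V), ∀ u v, G.Adj u v → (σ u : ℕ) ≤ (σ v : ℕ) + k}

/-- `f` is bounded by a function of `g`. -/
def BoundedBy (f g : Param) : Prop :=
  ∃ h : ℕ → ℕ, ∀ (V : Type) [Finite V] (G : SimpleGraph V), f V G ≤ h (g V G)

/-- Continuity of a parameter. -/
def ContinuousParam (f : Param) : Prop :=
  ∃ g : ℕ → ℕ,
    (∀ (V : Type) [Finite V] (G : SimpleGraph V) (e : Sym2 V), e ∈ G.edgeSet →
      f V G ≤ g (f V (G.deleteEdges {e}))) ∧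
    (∀ (V : Type) [Finite V] (G : SimpleGraph V) (v : V), (∀ w, ¬ G.Adj v w) →
      f V G ≤ g (f {w : V // w ≠ v} (G.induce {w : V | w ≠ v})))

/-- A trigraph: black edges and red edges. -/
structure Trigraph (V : Type) where
  black : SimpleGraph V
  red : SimpleGraph V

/-- Contraction of `u` and `v`; the new vertex is represented by `u`, and `v` is removed. -/
def Trigraph.contract {V : Type} (T : Trigraph V) (u v : V) : Trigraph {x : V // x ≠ v} where
  black := SimpleGraph.fromRel fun a b =>
    (a.1 = u ∧ T.black.Adj u b.1 ∧ T.black.Adj v b.1) ∨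
    (a.1 ≠ u ∧ b.1 ≠ u ∧ T.black.Adj a.1 b.1)
  red := SimpleGraph.fromRel fun a b =>
    (a.1 = u ∧
      (T.black.Adj u b.1 ∨ T.red.Adj u b.1 ∨ T.black.Adj v b.1 ∨ T.red.Adj v b.1) ∧
      ¬ (T.black.Adj u b.1 ∧ T.black.Adj v b.1)) ∨
    (a.1 ≠ u ∧ b.1 ≠ u ∧ T.red.Adj a.1 b.1)

/-- There is a sequence of contractions from the trigraph down to one vertex along which every
red graph has `f`-value at most `c`. -/
inductive Reducible (f : Param) (c : ℕ) : (V : Type) → [Finite V] → Trigraph V → Prop
  | last (V : Type) [Finite V] (T : Trigraph V) :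
      Nat.card V = 1 → f V T.red ≤ c → Reducible f c V T
  | step (V : Type) [Finite V] (T : Trigraph V) (u v : V) :
      u ≠ v → f V T.red ≤ c → Reducible f c {x : V // x ≠ v} (T.contract u v) →
      Reducible f c V T

/-- Reversal of darts (oriented edges). -/
def reversal {V : Type} (G : SimpleGraph V) : Equiv.Perm G.Dart :=
  Function.Involutive.toPerm SimpleGraph.Dart.symm SimpleGraph.Dart.symm_involutive

/-- The number of cycles (orbits) of a permutation, fixed points included. -/
noncomputable def numCycles {D : Type} (π : Equiv.Perm D) : ℕ :=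
  Nat.card (Quotient (Equiv.Perm.SameCycle.setoid π))

/-- Planarity: a rotation system (a cyclic order of the darts leaving each vertex) whose face
count satisfies Euler's formula for the sphere on every component; an isolated vertex
counts for one face. -/
def Planar {V : Type} (G : SimpleGraph V) : Prop :=
  ∃ σ : Equiv.Perm G.Dart, (∀ d e : G.Dart, σ.SameCycle d e ↔ d.fst = e.fst) ∧
    Nat.card V + (numCycles (σ * reversal G) + Nat.card {v : V // ∀ w, ¬ G.Adj v w}) =
      Nat.card G.edgeSet + 2 * Nat.card G.ConnectedComponent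

end Pool.Agent.Lib.MP_d92bf9_co
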