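import Pool.Agent.Lib.MP_d92bf9_co.Region
import Pool.Agent.Lib.MP_d92bf9_co.Cycles

namespace Pool.Agent.Lib.MP_d92bf9_co

open SimpleGraph Equiv Equiv.Perm

variable {V : Type}

instance finite_dart [Finite V] (G : SimpleGraph V) : Finite G.Dart :=
  Finite.of_injective _ (Dart.toProd_injective (G := G))

/-- A breadth-first search forest. -/
structure BFS (G : SimpleGraph V) where
  root : V → V
  par : V → V
  dep : V → ℕ
  lay : Layering G dep
  root_adj : ∀ x y, G.Adj x y → root x = root y
  dep_root : ∀ v, dep (root v) = 0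
  root_of_dep : ∀ v, dep v = 0 → root v = v
  par_adj : ∀ v, dep v ≠ 0 → G.Adj v (par v)
  par_dep : ∀ v, dep (par v) = dep v - 1
  root_par : ∀ v, root (par v) = root v
  card_roots : Nat.card {v // dep v = 0} = Nat.card G.ConnectedComponent

lemma exists_bfs (G : SimpleGraph V) : Nonempty (BFS G) := by
  classical
  let root : V → V := fun v => Quot.out (G.connectedComponentMk v)
  have hr : ∀ v, G.connectedComponentMk (root v) = G.connectedComponentMk v := fun v =>
    Quot.out_eq _
  have hreach : ∀ v, G.Reachable (root v) v := fun v => ConnectedComponent.exact (hr v)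
  have hadj : ∀ x y, G.Adj x y → root x = root y := by
    intro x y h
    simp only [root]
    rw [ConnectedComponent.sound h.reachable]
  have hrr : ∀ v, root (root v) = root v := by
    intro v
    simp only [root]
    rw [hr v]
  let dep : V → ℕ := fun v => G.dist (root v) v
  have hlay : Layering G dep := by
    intro x y h
    simp only [dep]
    rw [hadj x y h]
    have := h.symm.diff_dist_adj (u := root y)
    omega
  have hdep0 : ∀ v, dep v = 0 → root v = v := fun v h => (hreach v).dist_eq_zero_iff.mp h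
  have hpar : ∀ v, ∃ w, (dep v ≠ 0 → G.Adj v w) ∧ dep w = dep v - 1 ∧ root w = root v := by
    intro v
    by_cases h : dep v = 0
    · exact ⟨v, fun k => absurd h k, by omega, rfl⟩
    · obtain ⟨p, hp⟩ := (hreach v).symm.exists_walk_length_eq_dist
      have hd : G.dist v (root v) = dep v := dist_comm
      generalize hz : root v = z at p hp hd
      cases p with
      | nil => simp at hd; omega
      | @cons _ w _ hw q =>
        refine ⟨w, fun _ => hw, ?_, (hadj _ _ hw).symm.trans hz⟩
        have h1 := hlay v w hw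
        have h2 : dep w ≤ q.length := by
          simp only [dep]
          rw [← hadj _ _ hw, hz, dist_comm]
          exact dist_le q
        simp only [Walk.length_cons] at hp
        omega
  choose par hp1 hp2 hp3 using hpar
  refine ⟨⟨root, par, dep, hlay, hadj, fun v => ?_, hdep0, hp1, hp2, hp3, ?_⟩⟩
  · simp only [dep]
    rw [hrr]; simp
  · apply Nat.card_congr
    refine Equiv.ofBijective (fun v => G.connectedComponentMk v.1) ⟨?_, ?_⟩
    · intro a b hab
      apply Subtype.ext
      rw [← hdep0 a.1 a.2, ← hdep0 b.1 b.2]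
      simp only [root]
      rw [show G.connectedComponentMk a.1 = G.connectedComponentMk b.1 from hab]
    · intro c
      induction c using ConnectedComponent.ind with
      | _ v =>
        refine ⟨⟨root v, ?_⟩, hr v⟩
        simp only [dep]
        rw [hrr]; simp

namespace BFS

variable {G : SimpleGraph V} (B : BFS G)

lemma dep_iter (k : ℕ) (v : V) : B.dep (B.par^[k] v) = B.dep v - k := by
  induction k with
  | zero => simp
  | succ k ih => rw [Function.iterate_succ_apply', B.par_dep, ih]; omega

lemma root_iter (k : ℕ) (v : V) : B.root (B.par^[k] v) = B.root v := by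
  induction k with
  | zero => simp
  | succ k ih => rw [Function.iterate_succ_apply', B.root_par, ih]

def up (v : V) (l : ℕ) : V := B.par^[B.dep v - l] v

def Anc (w v : V) : Prop := B.dep w ≤ B.dep v ∧ B.up v (B.dep w) = w

lemma anc_refl (v : V) : B.Anc v v := ⟨le_rfl, by simp [up]⟩

lemma anc_of_par {w v : V} (hv : B.dep v ≠ 0) (h : B.Anc w (B.par v)) : B.Anc w v := by
  obtain ⟨h1, h2⟩ := h
  rw [B.par_dep] at h1
  refine ⟨by omega, ?_⟩
  unfold up at h2 ⊢
  rw [B.par_dep] at h2
  rw [show B.dep v - B.dep w = (B.dep v - 1 - B.dep w) + 1 by omega, Function.iterate_succ_apply]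
  exact h2

lemma anc_par {w v : V} (h : B.Anc w v) (hne : v ≠ w) : B.Anc w (B.par v) := by
  obtain ⟨h1, h2⟩ := h
  unfold up at h2
  have h3 : B.dep v - B.dep w ≠ 0 := by
    intro k
    rw [k] at h2
    exact hne h2
  refine ⟨by rw [B.par_dep]; omega, ?_⟩
  unfold up
  rw [B.par_dep, ← Function.iterate_succ_apply,
    show (B.dep v - 1 - B.dep w).succ = B.dep v - B.dep w by omega]
  exact h2

lemma anc_par_left {v u : V} (hv : B.dep v ≠ 0) (h : B.Anc v u) : B.Anc (B.par v) u := by
  obtain ⟨h1, h2⟩ := h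
  refine ⟨by rw [B.par_dep]; omega, ?_⟩
  unfold up at h2 ⊢
  rw [B.par_dep, show B.dep u - (B.dep v - 1) = (B.dep u - B.dep v) + 1 by omega,
    Function.iterate_succ_apply', h2]

lemma anc_root (v : V) : B.Anc (B.root v) v := by
  refine ⟨by rw [B.dep_root]; omega, ?_⟩
  unfold up
  rw [B.dep_root, ← B.root_iter (B.dep v - 0) v]
  exact (B.root_of_dep _ (by rw [B.dep_iter]; omega)).symm

lemma anc_unique {w w' v : V} (h : B.Anc w v) (h' : B.Anc w' v) (e : B.dep w = B.dep w') :
    w = w' := by
  rw [← h.2, ← h'.2, e]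

def Tree (d : G.Dart) : Prop :=
  (B.dep d.fst ≠ 0 ∧ d.snd = B.par d.fst) ∨ (B.dep d.snd ≠ 0 ∧ d.fst = B.par d.snd)

lemma tree_symm (d : G.Dart) : B.Tree d.symm ↔ B.Tree d := by
  unfold Tree
  exact or_comm

open Classical in
noncomputable def aT : Perm G.Dart :=
  Function.Involutive.toPerm (fun d => if B.Tree d then d.symm else d) (by
    intro d
    by_cases h : B.Tree d
    · simp [h, tree_symm]
    · simp [h])

open Classical in
noncomputable def aN : Perm G.Dart :=
  Function.Involutive.toPerm (fun d => if B.Tree d then d else d.symm) (by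
    intro d
    by_cases h : B.Tree d
    · simp [h]
    · simp [h, tree_symm])

lemma aT_pos {d : G.Dart} (h : B.Tree d) : B.aT d = d.symm := by simp [aT, h]
lemma aT_neg {d : G.Dart} (h : ¬ B.Tree d) : B.aT d = d := by simp [aT, h]
lemma aN_pos {d : G.Dart} (h : B.Tree d) : B.aN d = d := by simp [aN, h]
lemma aN_neg {d : G.Dart} (h : ¬ B.Tree d) : B.aN d = d.symm := by simp [aN, h]

lemma aT_aT (d : G.Dart) : B.aT (B.aT d) = d := by
  by_cases h : B.Tree d
  · rw [B.aT_pos h, B.aT_pos ((B.tree_symm d).mpr h), Dart.symm_symm]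
  · rw [B.aT_neg h, B.aT_neg h]

lemma aN_aN (d : G.Dart) : B.aN (B.aN d) = d := by
  by_cases h : B.Tree d
  · rw [B.aN_pos h, B.aN_pos h]
  · rw [B.aN_neg h, B.aN_neg (fun k => h ((B.tree_symm d).mp k)), Dart.symm_symm]

lemma rev_eq : reversal G = B.aT * B.aN := by
  ext1 d
  rw [Perm.mul_apply]
  by_cases h : B.Tree d
  · rw [B.aN_pos h, B.aT_pos h]; rfl
  · rw [B.aN_neg h, B.aT_neg (fun k => h ((B.tree_symm d).mp k))]; rfl

def upd (w : V) (h : B.dep w ≠ 0) : G.Dart := ⟨(w, B.par w), B.par_adj w h⟩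

lemma tree_upd (w : V) (h : B.dep w ≠ 0) : B.Tree (B.upd w h) := Or.inl ⟨h, rfl⟩

lemma entry' {w : V} (h : B.dep w ≠ 0) {d : G.Dart} (h1 : ¬ B.Anc w d.fst)
    (h2 : B.Anc w (B.aT d).fst) : d = (B.upd w h).symm := by
  by_cases ht : B.Tree d
  · rw [B.aT_pos ht] at h2
    change B.Anc w d.snd at h2
    rcases ht with ⟨k1, k2⟩ | ⟨k1, k2⟩
    · rw [k2] at h2
      exact absurd (B.anc_of_par k1 h2) h1
    · have : d.snd = w := by
        by_contra hc
        apply h1
        rw [k2]
        exact B.anc_par h2 hc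
      apply Dart.ext
      apply Prod.ext
      · rw [k2, this]; rfl
      · exact this
  · rw [B.aT_neg ht] at h2
    exact absurd h2 h1

lemma exit' {w : V} (h : B.dep w ≠ 0) {d : G.Dart} (h1 : B.Anc w d.fst)
    (h2 : ¬ B.Anc w (B.aT d).fst) : d = B.upd w h := by
  have := B.entry' h h2 (by rw [B.aT_aT]; exact h1)
  rw [← B.aT_aT d, this, B.aT_pos ((B.tree_symm _).mpr (B.tree_upd w h)), Dart.symm_symm]

section Rot

variable {σ : Perm G.Dart} (hσ : ∀ d e : G.Dart, σ.SameCycle d e ↔ d.fst = e.fst)
include hσ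

lemma tau_fst (d : G.Dart) : ((σ * B.aT) d).fst = (B.aT d).fst :=
  ((hσ _ _).mp (sameCycle_step σ (B.aT d))).symm

lemma tau_root (d : G.Dart) : B.root ((σ * B.aT) d).fst = B.root d.fst := by
  rw [B.tau_fst hσ]
  by_cases h : B.Tree d
  · rw [B.aT_pos h]; exact (B.root_adj _ _ d.adj).symm
  · rw [B.aT_neg h]

variable [Finite V]

lemma same_upd (w : V) (h : B.dep w ≠ 0) :
    SameCycle (σ * B.aT) (B.upd w h).symm (B.upd w h) := by
  obtain ⟨y, h1, h2, h3⟩ := exit_lemma (σ * B.aT) {d | B.Anc w d.fst} (x := (B.upd w h).symm)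
    (by
      intro k
      have := k.1
      change B.dep w ≤ B.dep (B.par w) at this
      rw [B.par_dep] at this
      omega)
    (by
      change B.Anc w _
      rw [B.tau_fst hσ, B.aT_pos ((B.tree_symm _).mpr (B.tree_upd w h))]
      exact B.anc_refl w)
  have : y = B.upd w h := B.exit' h h1 (by rw [← B.tau_fst hσ]; exact h2)
  rwa [this] at h3

lemma same_aT (d : G.Dart) : SameCycle (σ * B.aT) d (B.aT d) := by
  by_cases ht : B.Tree d
  · rw [B.aT_pos ht]
    rcases ht with ⟨k1, k2⟩ | ⟨k1, k2⟩
    · have : d = B.upd d.fst k1 := Dart.ext _ _ (Prod.ext rfl k2)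
      rw [this]
      exact (B.same_upd hσ _ k1).symm
    · have : d = (B.upd d.snd k1).symm := Dart.ext _ _ (Prod.ext k2 rfl)
      rw [this]
      exact B.same_upd hσ _ k1
  · rw [B.aT_neg ht]

lemma same_fst {d e : G.Dart} (h : d.fst = e.fst) : SameCycle (σ * B.aT) d e := by
  refine sameCycle_ind (sameCycle_equiv _) (fun x => ?_) ((hσ d e).mpr h)
  have : σ x = (σ * B.aT) (B.aT x) := by rw [Perm.mul_apply, B.aT_aT]
  rw [this]
  exact (B.same_aT hσ x).trans (sameCycle_step _ _)

lemma to_root : ∀ (n : ℕ) (d : G.Dart), B.dep d.fst = n →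
    ∃ e : G.Dart, e.fst = B.root d.fst ∧ SameCycle (σ * B.aT) d e := by
  intro n
  induction n with
  | zero => intro d h; exact ⟨d, (B.root_of_dep _ h).symm, SameCycle.refl _ _⟩
  | succ n ih =>
    intro d h
    have hd : B.dep d.fst ≠ 0 := by omega
    obtain ⟨e, h1, h2⟩ := ih (B.upd d.fst hd).symm (by
      change B.dep (B.par d.fst) = n
      rw [B.par_dep]; omega)
    refine ⟨e, h1.trans (B.root_par _), ?_⟩
    exact ((B.same_fst hσ (d := d) (e := B.upd d.fst hd) rfl).trans (B.same_upd hσ _ hd).symm).trans h2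

lemma same_root {d e : G.Dart} (h : B.root d.fst = B.root e.fst) : SameCycle (σ * B.aT) d e := by
  obtain ⟨d', h1, h2⟩ := B.to_root hσ _ d rfl
  obtain ⟨e', h3, h4⟩ := B.to_root hσ _ e rfl
  exact (h2.trans (B.same_fst hσ (by rw [h1, h3, h]))).trans h4.symm

lemma count_cycles : numCycles (σ * B.aT) + Nat.card {v : V // ∀ w, ¬ G.Adj v w} ≤
    Nat.card G.ConnectedComponent := by
  rw [← B.card_roots, numCycles, ← Nat.card_sum]
  refine Nat.card_le_card_of_injective
    (Sum.elim (fun q => ⟨B.root q.out.fst, B.dep_root _⟩) (fun v => ⟨v.1, ?_⟩)) ?_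
  · by_contra h
    exact v.2 _ (B.par_adj _ h)
  · rintro (q | v) (r | w) h
    · have h1 : B.root q.out.fst = B.root r.out.fst := congrArg Subtype.val h
      rw [← q.out_eq, ← r.out_eq]
      exact congrArg _ (Quotient.sound (B.same_root hσ h1))
    · have h1 : B.root q.out.fst = w.1 := congrArg Subtype.val h
      obtain ⟨e, h2, -⟩ := B.to_root hσ _ q.out rfl
      exact absurd (by rw [← h1, ← h2]; exact e.adj) (w.2 e.snd)
    · have h1 : v.1 = B.root r.out.fst := congrArg Subtype.val h
      obtain ⟨e, h2, -⟩ := B.to_root hσ _ r.out rfl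
      exact absurd (by rw [h1, ← h2]; exact e.adj) (v.2 e.snd)
    · have h1 : v.1 = w.1 := congrArg (fun z : {v // B.dep v = 0} => z.1) h
      exact congrArg _ (Subtype.ext h1)

end Rot

lemma count_support [Finite V] [Fintype G.Dart] [DecidableEq G.Dart] :
    B.aN.support.card + 2 * Nat.card V ≤
      2 * Nat.card G.edgeSet + 2 * Nat.card G.ConnectedComponent := by
  classical
  have := Fintype.ofFinite V
  have h1 : Nat.card G.Dart = 2 * Nat.card G.edgeSet := by
    have := G.dart_card_eq_twice_card_edges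
    rw [edgeFinset_card] at this
    rw [Nat.card_eq_fintype_card, Nat.card_eq_fintype_card]
    convert this
  have h2 : Nat.card {v // B.dep v = 0} + Nat.card {v // ¬ B.dep v = 0} = Nat.card V := by
    rw [← Nat.card_sum]
    exact Nat.card_congr (Equiv.sumCompl _)
  have h3 : Nat.card (B.aN.support ⊕ ({v // ¬ B.dep v = 0} ⊕ {v // ¬ B.dep v = 0})) ≤
      Nat.card G.Dart := by
    refine Nat.card_le_card_of_injective
      (Sum.elim (fun d => d.1) (Sum.elim (fun v => B.upd v.1 v.2) (fun v => (B.upd v.1 v.2).symm)))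
      ?_
    have hs : ∀ d : B.aN.support, ¬ B.Tree d.1 := fun d k =>
      mem_support.mp d.2 (B.aN_pos k)
    have hud : ∀ v w : {v // ¬ B.dep v = 0}, B.upd v.1 v.2 ≠ (B.upd w.1 w.2).symm := by
      intro v w k
      have e1 : v.1 = B.par w.1 := congrArg (fun d : G.Dart => d.fst) k
      have e2 : B.par v.1 = w.1 := congrArg (fun d : G.Dart => d.snd) k
      have e3 := B.par_dep v.1
      have e4 := B.par_dep w.1
      rw [e2] at e3
      rw [← e1] at e4
      have := v.2
      omega
    rintro (a | a | a) (b | b | b) h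
    · exact congrArg _ (Subtype.ext h)
    · exact absurd (by rw [show a.1 = _ from h]; exact B.tree_upd _ b.2) (hs a)
    · exact absurd (by rw [show a.1 = _ from h]; exact (B.tree_symm _).mpr (B.tree_upd _ b.2)) (hs a)
    · exact absurd (by rw [show b.1 = _ from h.symm]; exact B.tree_upd _ a.2) (hs b)
    · exact congrArg _ (congrArg _ (Subtype.ext (congrArg (fun d : G.Dart => d.fst) h)))
    · exact absurd h (hud a b)
    · exact absurd (by rw [show b.1 = _ from h.symm]; exact (B.tree_symm _).mpr (B.tree_upd _ a.2))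
        (hs b)
    · exact absurd h.symm (hud b a)
    · exact congrArg _ (congrArg _ (Subtype.ext (congrArg (fun d : G.Dart => d.snd) h)))
  rw [Nat.card_sum, Nat.card_sum, Nat.card_eq_fintype_card, Fintype.card_coe] at h3
  have := B.card_roots
  omega

end BFS

end Pool.Agent.Lib.MP_d92bf9_co
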