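import Pool.Agent.Lib.MP_d92bf9_co.Defs

/-! Planarity by drawings in the plane. -/

namespace Pool.Agent.Lib.MP_d92bf9_co

/-- `G` is planar: the vertices are distinct points of the plane, every edge is an arc (an injective
continuous curve on `[0, 1]`) joining its ends whose interior contains no vertex, and the interiors
of the arcs of two different edges are disjoint. -/
def PlanarDrawn {V : Type} (G : SimpleGraph V) : Prop :=
  ∃ (pos : V → ℝ × ℝ) (arc : Sym2 V → ℝ → ℝ × ℝ), Function.Injective pos ∧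
    (∀ u v, G.Adj u v → ContinuousOn (arc s(u, v)) (Set.Icc 0 1) ∧
      Set.InjOn (arc s(u, v)) (Set.Icc 0 1) ∧
      ((arc s(u, v) 0 = pos u ∧ arc s(u, v) 1 = pos v) ∨
        (arc s(u, v) 0 = pos v ∧ arc s(u, v) 1 = pos u)) ∧
      ∀ w, pos w ∉ arc s(u, v) '' Set.Ioo 0 1) ∧
    ∀ e ∈ G.edgeSet, ∀ e' ∈ G.edgeSet, e ≠ e' →
      Disjoint (arc e '' Set.Ioo 0 1) (arc e' '' Set.Ioo 0 1)

end Pool.Agent.Lib.MP_d92bf9_co
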