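import Pool.Agent.Lib.MP_d92bf9_co.Region
import Pool.Agent.Lib.MP_d92bf9_co.H40DefD
import Pool.Agent.Lib.MP_25cd9a_co.Discretize

/-! Bounded reduced bandwidth from a layered tree decomposition, and for drawn planar graphs through
the product structure theorem. -/

namespace Pool.Agent.Lib.MP_d92bf9_co.H40

open SimpleGraph

variable {V : Type}

def SmallM (M : ℕ) (G : SimpleGraph V) (lay : V → ℕ) (I : Set V) : Prop :=
  ∃ col : V → ℕ, (∀ x, col x < M) ∧
    ∀ x ∈ I, ∀ y ∈ I, lay x = lay y → col x = col y → Tgt G lay I x y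

def ProcM (c : ℕ) (G : SimpleGraph V) (lay : V → ℕ) (I : Set V) : Prop :=
  ∀ s, OK G c s → (∀ x ∈ I, ∀ y, s x y → x = y) →
    (∀ x x', s x x' → ∀ z ∈ I, (G.Adj x z ↔ G.Adj x' z)) →
    Reach G c s (fun x y => s x y ∨ Tgt G lay I x y)

lemma exists_idx [Finite V] (S : Set V) {q : ℕ} (h : S.ncard ≤ q) :
    ∃ e : V → ℕ, (∀ y, e y < q + 1) ∧ Set.InjOn e S := by
  classical
  refine ⟨fun y => if hy : y ∈ S then (Finite.equivFin S ⟨y, hy⟩ : ℕ) else 0, fun y => ?_, ?_⟩
  · by_cases hy : y ∈ S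
    · simp only [dif_pos hy]
      have h1 := (Finite.equivFin S ⟨y, hy⟩).2
      have h2 := Nat.card_coe_set_eq S
      omega
    · simp [dif_neg hy]
  · intro x hx y hy hxy
    simp only [dif_pos hx, dif_pos hy] at hxy
    exact congrArg Subtype.val ((Finite.equivFin S).injective (Fin.ext hxy))

lemma smallM_of_card [Finite V] {G : SimpleGraph V} {lay : V → ℕ} {I : Set V} {q : ℕ}
    (Bd : ℕ → Set V) (hq : ∀ l, (Bd l).ncard ≤ q)
    (hz : ∀ x ∈ I, ∀ y, y ∉ I → G.Adj x y → y ∈ Bd (lay x)) : SmallM (2 ^ (q + 1)) G lay I := by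
  classical
  choose e he1 he2 using fun l => exists_idx (Bd l) (hq l)
  let E := Fintype.equivFin (Fin (q + 1) → Bool)
  let pat : V → Fin (q + 1) → Bool := fun x i =>
    decide (∃ y ∈ Bd (lay x), e (lay x) y = i ∧ G.Adj x y)
  refine ⟨fun x => E (pat x), fun x => ?_, ?_⟩
  · have := (E (pat x)).2
    simpa using this
  · have key : ∀ x ∈ I, ∀ y, lay x = lay y → pat x = pat y → ∀ w, w ∉ I → G.Adj x w →
        G.Adj y w := by
      intro x hx y hl hp w hw k
      have h1 := congrFun hp ⟨e (lay x) w, he1 _ _⟩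
      have h2 : pat x ⟨e (lay x) w, he1 _ _⟩ = true :=
        decide_eq_true ⟨w, hz x hx w hw k, rfl, k⟩
      rw [h2] at h1
      obtain ⟨w', a1, a2, a3⟩ := of_decide_eq_true h1.symm
      rw [← hl] at a1 a2
      rwa [he2 _ a1 (hz x hx w hw k) a2] at a3
    intro x hx y hy hl hc
    have h1 := E.injective (Fin.ext hc)
    exact ⟨hx, hy, hl, fun w hw => ⟨key x hx y hl h1 w hw, key y hy x hl.symm h1.symm w hw⟩⟩

lemma procM_empty (c : ℕ) (G : SimpleGraph V) (lay : V → ℕ) : ProcM c G lay ∅ := by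
  intro s _ _ _
  have : (fun x y => s x y ∨ Tgt G lay ∅ x y) = s := by
    funext x y
    simp [Tgt]
  rw [this]
  exact Relation.ReflTransGen.refl

lemma combineM [Finite V] {G : SimpleGraph V} {lay : V → ℕ} (hlay : Layering G lay) {M N c : ℕ}
    (hc : 2 * (2 * M + N) ≤ c)
    {I I1 I2 : Set V} (p1 : ProcM c G lay I1) (p2 : ProcM c G lay I2) (s1 : SmallM M G lay I1)
    (s2 : SmallM M G lay I2) (hd : Disjoint I1 I2) (h1 : I1 ⊆ I) (h2 : I2 ⊆ I)
    (c0 : V → ℕ) (a0 : ∀ x, c0 x < N)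
    (hN : ∀ x ∈ I, ∀ y ∈ I, x ∉ I1 → x ∉ I2 → y ∉ I1 → y ∉ I2 → lay x = lay y → c0 x = c0 y →
      x = y) : ProcM c G lay I := by
  classical
  intro s hs ht hh
  have r1 := p1 s hs (fun x hx => ht x (h1 hx)) (fun x x' k z hz => hh x x' k z (h1 hz))
  have o1 := r1.ok hs
  have r2 := p2 _ o1 (by
    rintro x hx y (k | k)
    · exact ht x (h2 hx) y k
    · exact absurd hx (Set.disjoint_left.mp hd k.1)) (by
    rintro x x' (k | k) z hz
    · exact hh x x' k z (h2 hz)
    · exact k.2.2.2 z (Set.disjoint_right.mp hd hz))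
  have o2 := r2.ok o1
  refine (r1.trans r2).trans (coarsen (join_equiv hs.equiv ht) _ _ o2.equiv ?_ rfl ?_)
  · rintro x y ((k | k) | k)
    · exact Or.inl k
    · exact Or.inr (k.mono h1)
    · exact Or.inr (k.mono h2)
  · intro t hte k1 k2
    obtain ⟨c1, a1, b1⟩ := s1
    obtain ⟨c2, a2, b2⟩ := s2
    refine ok_extend (m := 2 * M + N) hc hlay hs hte I ?_ hh ?_
      (fun x => if x ∈ I1 then c1 x else if x ∈ I2 then M + c2 x else 2 * M + c0 x) ?_ ?_
    · intro x y hx
      refine ⟨fun k => ?_, fun k => k1 _ _ (Or.inl (Or.inl k))⟩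
      rcases k2 _ _ k with l | l
      · exact l
      · exact absurd l.1 hx
    · intro x hx y k
      rcases k2 _ _ k with l | l
      · rw [← ht x hx y l]
        exact ⟨hx, rfl, fun _ _ => Iff.rfl⟩
      · exact l.2
    · intro x
      have := a1 x
      have := a2 x
      have := a0 x
      split_ifs <;> omega
    · intro x hx y hy hl hc
      have := a1 x
      have := a2 x
      have := a1 y
      have := a2 y
      split_ifs at hc with e1 e2 e3 e4 e5 e6 e7 e8
      · exact k1 _ _ (Or.inl (Or.inr (b1 x e1 y e2 hl hc)))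
      · omega
      · omega
      · omega
      · exact k1 _ _ (Or.inr (b2 x e4 y e6 hl (by omega)))
      · omega
      · omega
      · omega
      · rw [hN x hx y hy e1 e4 e7 e8 hl (by omega)]
        exact hte.refl y

lemma layers_reachM [Finite V] {G : SimpleGraph V} {lay : V → ℕ} (hlay : Layering G lay) {c : ℕ}
    (hc : 4 ≤ c) (h : ℕ) :
    Reach G c (fun x y => min (lay x) h = min (lay y) h) (fun _ _ => True) := by
  classical
  induction h with
  | zero =>
    have : (fun x y => min (lay x) 0 = min (lay y) 0) = (fun _ _ : V => True) := by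
      funext x y; simp
    rw [this]
    exact Relation.ReflTransGen.refl
  | succ h ih =>
    refine Relation.ReflTransGen.trans ?_ ih
    refine coarsen (V := V) (s' := fun x y => min (lay x) h = min (lay y) h)
      ⟨fun _ => rfl, fun k => k.symm, fun k l => k.trans l⟩ _
      (fun x y => min (lay x) (h + 1) = min (lay y) (h + 1))
      ⟨fun _ => rfl, fun k => k.symm, fun k l => k.trans l⟩ (fun x y k => by omega) rfl ?_
    intro t hte k1 k2
    refine ok_extend (m := 2) (lay := fun x => min (lay x) h) hc ?_ (ok_eq G _) hte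
      Set.univ (fun x y hx => absurd (Set.mem_univ x) hx) ?_ ?_
      (fun x => if h < lay x then 1 else 0) ?_ ?_
    · intro x y k
      have := hlay x y k
      simp only
      omega
    · rintro x x' rfl z _; exact Iff.rfl
    · intro x _ y k
      exact ⟨Set.mem_univ _, k2 _ _ k, fun z hz => absurd (Set.mem_univ z) hz⟩
    · intro x; split_ifs <;> omega
    · intro x _ y _ hl hc
      apply k1
      split_ifs at hc <;> omega

theorem reducible_of_procM [Finite V] [Nonempty V] {G : SimpleGraph V} {lay : V → ℕ} {c : ℕ}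
    (hc : 4 ≤ c) (hlay : Layering G lay) (h : ProcM c G lay Set.univ) :
    Reducible (delParam c) 0 V ⟨G, ⊥⟩ := by
  obtain ⟨B, hB⟩ := (Set.finite_range lay).bddAbove
  have r1 := h _ (ok_eq G _) (fun x _ y k => k) (by rintro x x' rfl z _; exact Iff.rfl)
  have e : (fun x y => x = y ∨ Tgt G lay Set.univ x y) =
      (fun x y => min (lay x) B = min (lay y) B) := by
    funext x y
    have a1 : lay x ≤ B := hB ⟨x, rfl⟩
    have a2 : lay y ≤ B := hB ⟨y, rfl⟩
    rw [min_eq_left a1, min_eq_left a2]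
    apply propext
    constructor
    · rintro (rfl | k)
      · rfl
      · exact k.2.2.1
    · intro k
      exact Or.inr ⟨trivial, trivial, k, fun z hz => absurd (Set.mem_univ z) hz⟩
  rw [e] at r1
  rw [← quot_id]
  exact reducible_of_reach (r1.trans (layers_reachM hlay hc B)) (ok_eq G _) V id
    Function.surjective_id (fun _ _ => Iff.rfl)

lemma exit_edge {ι : Type} {T : SimpleGraph ι} {A S : Set ι} (h : (T.induce A).Connected) {a b : ι}
    (ha : a ∈ A) (hb : b ∈ A) (haS : a ∈ S) (hbS : b ∉ S) :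
    ∃ a' ∈ A, ∃ b' ∈ A, a' ∈ S ∧ b' ∉ S ∧ T.Adj a' b' := by
  obtain ⟨p⟩ := h.preconnected ⟨a, ha⟩ ⟨b, hb⟩
  obtain ⟨d, -, h1, h2⟩ := p.exists_boundary_dart {x : A | x.1 ∈ S} haS hbS
  exact ⟨d.fst.1, d.fst.2, d.snd.1, d.snd.2, h1, h2, d.adj⟩

/-- A layered tree decomposition gives a reduction sequence of bounded bandwidth. -/
theorem reducible_of_tree [Finite V] [Nonempty V] {G : SimpleGraph V} {lay : V → ℕ}
    (hlay : Layering G lay) {ι : Type} [Finite ι] {T : SimpleGraph ι} (hT : T.IsTree)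
    (sub : V → Set ι) (hconn : ∀ v, (T.induce (sub v)).Connected)
    (hadj : ∀ x y, G.Adj x y → ∃ t, t ∈ sub x ∧ t ∈ sub y) {q : ℕ}
    (hq : ∀ t l, {y | t ∈ sub y ∧ l ≤ lay y + 1 ∧ lay y ≤ l + 1}.ncard ≤ q) :
    Reducible (delParam (2 * (2 * 2 ^ (q + 1) + (q + 1)))) 0 V ⟨G, ⊥⟩ := by
  classical
  have hne : ∀ v, (sub v).Nonempty := fun v => by
    obtain ⟨x⟩ := (hconn v).nonempty
    exact ⟨x.1, x.2⟩
  have small : ∀ (S : Set ι) (t0 : ι), (∀ a ∈ S, ∀ b, b ∉ S → T.Adj a b → b = t0) →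
      SmallM (2 ^ (q + 1)) G lay {v | sub v ⊆ S} := by
    intro S t0 hS
    refine smallM_of_card _ (hq t0) fun x hx y hy hxy => ?_
    obtain ⟨t, h1, h2⟩ := hadj x y hxy
    obtain ⟨b, hb, hbS⟩ := Set.not_subset.1 hy
    obtain ⟨a', -, b', k1, k2, k3, k4⟩ := exit_edge (hconn y) h2 hb (hx h1) hbS
    exact ⟨hS a' k2 b' k3 k4 ▸ k1, hlay x y hxy, hlay y x hxy.symm⟩
  have small0 : SmallM (2 ^ (q + 1)) G lay ∅ :=
    ⟨fun _ => 0, fun _ => by positivity, fun x hx => hx.elim⟩
  have add : ∀ (C : Set ι) (s : ι), (∀ a ∈ C \ {s}, ∀ b, b ∉ C \ {s} → T.Adj a b → b = s) →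
      ProcM (2 * (2 * 2 ^ (q + 1) + (q + 1))) G lay {v | sub v ⊆ C \ {s}} →
      ProcM (2 * (2 * 2 ^ (q + 1) + (q + 1))) G lay {v | sub v ⊆ C} := by
    intro C s hC hp
    choose e he1 he2 using fun l => exists_idx _ (hq s l)
    have hs : ∀ x, sub x ⊆ C → ¬ sub x ⊆ C \ {s} → s ∈ sub x := by
      intro x h1 h2
      by_contra h3
      exact h2 fun a ha => ⟨h1 ha, fun e => h3 (e ▸ ha)⟩
    refine combineM hlay le_rfl hp (procM_empty _ G lay) (small _ s hC) small0
      (Set.disjoint_empty _) (fun v hv => Set.Subset.trans hv Set.sdiff_subset)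
      (Set.empty_subset _) (fun x => e (lay x) x) (fun x => he1 _ _) ?_
    intro x hx y hy h1 _ h2 _ hl hc
    rw [← hl] at hc
    exact he2 (lay x) ⟨hs x hx h1, by omega, by omega⟩ ⟨hs y hy h2, by omega, by omega⟩ hc
  have main : ∀ (k : ℕ) (S : Set ι) (t0 : ι), S.ncard = k → t0 ∉ S →
      (∀ a ∈ S, ∀ b, b ∉ S → T.Adj a b → b = t0) →
      ProcM (2 * (2 * 2 ^ (q + 1) + (q + 1))) G lay {v | sub v ⊆ S} := by
    intro k
    induction k using Nat.strong_induction_on with
    | _ k ih =>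
    intro S t0 hk ht0 hS
    rcases S.eq_empty_or_nonempty with rfl | ⟨a, ha⟩
    · have : {v | sub v ⊆ (∅ : Set ι)} = ∅ :=
        Set.eq_empty_of_forall_notMem fun v hv => (hne v).ne_empty (Set.subset_empty_iff.1 hv)
      rw [this]
      exact procM_empty _ G lay
    obtain ⟨p⟩ := hT.connected.preconnected a t0
    obtain ⟨d, -, hd1, hd2⟩ := p.exists_boundary_dart S ha ht0
    have hst : T.Adj d.fst t0 := hS _ hd1 _ hd2 d.adj ▸ d.adj
    set s := d.fst with hsdef
    let C : Set ι := {u | Relation.ReflTransGen (fun a b => T.Adj a b ∧ b ≠ t0) s u}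
    have hsC : s ∈ C := Relation.ReflTransGen.refl
    have hCS : C ⊆ S := by
      intro u hu
      induction hu with
      | refl => exact hd1
      | tail _ h ih' =>
        by_contra hn
        exact h.2 (hS _ ih' _ hn h.1)
    have hC : ∀ a ∈ C, ∀ b, b ∉ C → T.Adj a b → b = t0 := by
      intro a ha b hb hab
      by_contra hn
      exact hb (Relation.ReflTransGen.tail ha ⟨hab, hn⟩)
    have huniq : ∀ u ∈ C, T.Adj u t0 → u = s := by
      intro u hu hut
      by_contra hn
      have hb := (isAcyclic_iff_forall_adj_isBridge.1 hT.isAcyclic) hst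
      rw [isBridge_iff] at hb
      have r : ∀ w ∈ C, (T.deleteEdges {s(s, t0)}).Reachable s w := by
        intro w hw
        induction hw with
        | refl => rfl
        | @tail x y hx h ih' =>
          refine ih'.trans (Adj.reachable ?_)
          rw [deleteEdges_adj]
          refine ⟨h.1, fun e => ?_⟩
          rcases Sym2.eq_iff.1 (Set.mem_singleton_iff.1 e) with k | k
          · exact h.2 k.2
          · exact ht0 (k.1 ▸ hCS hx)
      refine hb ((r u hu).trans (Adj.reachable ?_))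
      rw [deleteEdges_adj]
      refine ⟨hut, fun e => ?_⟩
      rcases Sym2.eq_iff.1 (Set.mem_singleton_iff.1 e) with k | k
      · exact hn k.1
      · exact hut.ne k.1
    have hC' : ∀ a ∈ C \ {s}, ∀ b, b ∉ C \ {s} → T.Adj a b → b = s := by
      intro a ha b hb hab
      by_contra hn
      by_cases hbC : b ∈ C
      · exact hb ⟨hbC, hn⟩
      · exact ha.2 (huniq a ha.1 (hC a ha.1 b hbC hab ▸ hab))
    have hS1 : ∀ a ∈ S \ C, ∀ b, b ∉ S \ C → T.Adj a b → b = t0 := by
      intro a ha b hb hab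
      by_cases hbC : b ∈ C
      · exact absurd (hC b hbC a ha.2 hab.symm ▸ ha.1) ht0
      · exact hS a ha.1 b (fun h => hb ⟨h, hbC⟩) hab
    have lt1 : (C \ {s}).ncard < k := by
      rw [← hk]
      exact Set.ncard_lt_ncard ⟨fun u hu => hCS hu.1, fun h => (h hd1).2 rfl⟩
    have lt2 : (S \ C).ncard < k := by
      rw [← hk]
      exact Set.ncard_lt_ncard ⟨fun u hu => hu.1, fun h => (h hd1).2 hsC⟩
    have pC := add C s hC' (ih _ lt1 _ s rfl (fun h => h.2 rfl) hC')
    have pS := ih _ lt2 _ t0 rfl (fun h => ht0 h.1) hS1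
    refine combineM hlay le_rfl pS pC (small _ t0 hS1) (small _ t0 hC) ?_
      (fun v hv => Set.Subset.trans hv Set.sdiff_subset) (fun v hv => Set.Subset.trans hv hCS)
      (fun _ => 0) (fun _ => Nat.succ_pos q) ?_
    · refine Set.disjoint_left.2 fun v h1 h2 => ?_
      obtain ⟨t, ht⟩ := hne v
      exact (h1 ht).2 (h2 ht)
    · intro x hx y _ h1 h2 _ _ _ _
      obtain ⟨a, ha1, ha2⟩ := Set.not_subset.1 h1
      obtain ⟨b, hb1, hb2⟩ := Set.not_subset.1 h2
      have haC : a ∈ C := by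
        by_contra hn
        exact ha2 ⟨hx ha1, hn⟩
      obtain ⟨a', -, b', k1, k2, k3, k4⟩ := exit_edge (hconn x) ha1 hb1 haC hb2
      exact absurd (hC a' k2 b' k3 k4 ▸ hx k1) ht0
  obtain ⟨r⟩ := hT.connected.nonempty
  have hr : ∀ a ∈ (Set.univ : Set ι) \ {r}, ∀ b, b ∉ (Set.univ : Set ι) \ {r} → T.Adj a b →
      b = r := by
    intro a _ b hb _
    by_contra hn
    exact hb ⟨trivial, hn⟩
  have fin := add Set.univ r hr (main _ _ r rfl (fun h => h.2 rfl) hr)
  have e : {v | sub v ⊆ (Set.univ : Set ι)} = Set.univ :=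
    Set.eq_univ_of_forall fun v => Set.subset_univ _
  rw [e] at fin
  have h2 : 1 ≤ 2 ^ (q + 1) := Nat.one_le_two_pow
  exact reducible_of_procM (by omega) hlay fin

open Pool.Agent.Lib.MP_25cd9a_co in
lemma kplanar_of_drawn {W : Type} {G : SimpleGraph V} (h : PlanarDrawn G) (φ : W ≃ V) :
    KPlanar 0 (G.comap φ) := by
  obtain ⟨pos, arc, h1, h2, h3⟩ := h
  refine ⟨pos ∘ φ, arc ∘ Sym2.map φ, h1.comp φ.injective, fun u v huv => ?_, fun e he => ?_⟩
  · obtain ⟨a1, a2, a3, a4⟩ := h2 _ _ huv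
    exact ⟨a1, a2, a3, fun w t ht k => a4 (φ w) ⟨t, ht, k⟩⟩
  · have hm : ∀ f ∈ (G.comap φ).edgeSet, Sym2.map φ f ∈ G.edgeSet := by
      intro f
      induction f using Sym2.ind with
      | _ x y => exact fun hf => hf
    rw [Set.eq_empty_of_forall_notMem (s := {f | f ∈ (G.comap φ).edgeSet ∧ f ≠ e ∧
      ((arc ∘ Sym2.map φ) e '' Set.Ioo 0 1 ∩ (arc ∘ Sym2.map φ) f '' Set.Ioo 0 1).Nonempty})]
    · simp
    · rintro f ⟨hf, hfe, hn⟩
      exact Set.not_disjoint_iff_nonempty_inter.2 hn (h3 _ (hm e he) _ (hm f hf)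
        fun k => hfe (Sym2.map.injective φ.injective k).symm)

open Pool.Agent.Lib.MP_25cd9a_co in
/-- Planar graphs have bounded reduced bandwidth. -/
theorem drawn_reducible : ∃ c : ℕ, ∀ (V : Type) [Finite V] [Nonempty V] (G : SimpleGraph V),
    PlanarDrawn G → Reducible (delParam c) 0 V ⟨G, ⊥⟩ := by
  classical
  obtain ⟨f, hf⟩ := admissible_three
  refine ⟨2 * (2 * 2 ^ (4 * (3 * f 0) + 1) + (4 * (3 * f 0) + 1)), fun V _ _ G hG => ?_⟩
  let φ := Finite.equivFin V
  obtain ⟨m, l, H, ⟨n, T, bag, hT, hb1, hb2, hb3⟩, ⟨ψ⟩⟩ :=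
    hf 0 _ _ (kplanar_of_drawn hG φ.symm)
  let g : V → (Fin m × Fin (l + 1)) × Fin (f 0) := fun v => ψ (φ v)
  have hg : Function.Injective g := ψ.injective.comp φ.injective
  have hga : ∀ x y, G.Adj x y → (g x).1 = (g y).1 ∨
      (strongProd H (pathGraph (l + 1))).Adj (g x).1 (g y).1 := by
    intro x y hxy
    have : (G.comap φ.symm).Adj (φ x) (φ y) := by simpa using hxy
    rcases ψ.toHom.map_adj this with k | k | k
    · exact Or.inl k.1
    · exact Or.inr k.2
    · exact Or.inr k.1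
  refine reducible_of_tree (lay := fun v => ((g v).1.2 : ℕ)) ?_ hT
    (fun v => {t | (g v).1.1 ∈ bag t}) (fun v => hb2 _) ?_ ?_
  · intro x y hxy
    rcases hga x y hxy with k | k | k | k
    · simp only [k]; omega
    · have := pathGraph_adj.1 k.2
      simp only; omega
    · simp only [k.1]; omega
    · have := pathGraph_adj.1 k.2
      simp only; omega
  · intro x y hxy
    have same : (g x).1.1 = (g y).1.1 → ∃ t, (g x).1.1 ∈ bag t ∧ (g y).1.1 ∈ bag t := by
      intro k
      obtain ⟨t⟩ := (hb2 (g x).1.1).nonempty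
      exact ⟨t.1, t.2, k ▸ t.2⟩
    rcases hga x y hxy with k | k | k | k
    · exact same (by rw [k])
    · exact same k.1
    · exact hb1 _ _ k.2
    · exact hb1 _ _ k.1
  · intro t j
    have h1 := Set.ncard_le_ncard_of_injOn
      (s := {y | (g y).1.1 ∈ bag t ∧ j ≤ ((g y).1.2 : ℕ) + 1 ∧ ((g y).1.2 : ℕ) ≤ j + 1})
      (t := ((bag t ×ˢ (Finset.range 3 ×ˢ (Finset.univ : Finset (Fin (f 0)))) :
        Finset (Fin m × ℕ × Fin (f 0))) : Set (Fin m × ℕ × Fin (f 0))))
      (fun y => ((g y).1.1, ((g y).1.2 : ℕ) + 1 - j, (g y).2)) (by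
        rintro y ⟨a1, a2, a3⟩
        simp only [Finset.mem_coe, Finset.mem_product, Finset.mem_range, Finset.mem_univ, and_true]
        exact ⟨a1, by omega⟩) (by
        rintro x ⟨-, a2, -⟩ y ⟨-, b2, -⟩ hxy
        simp only [Prod.mk.injEq] at hxy
        exact hg (Prod.ext (Prod.ext hxy.1 (Fin.ext (by omega))) hxy.2.2)) (Finset.finite_toSet _)
    rw [Set.ncard_coe_finset, Finset.card_product, Finset.card_product, Finset.card_range,
      Finset.card_univ, Fintype.card_fin] at h1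
    exact h1.trans (Nat.mul_le_mul_right _ (hb3 t))

end Pool.Agent.Lib.MP_d92bf9_co.H40
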