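import Pool.Agent.Lib.MP_d92bf9_co.Defs

/-! Monotone and union-closed graph parameters. -/

namespace Pool.Agent.Lib.MP_d92bf9_co

/-- The value does not increase when passing to a subgraph. -/
def MonotoneParam (f : Param) : Prop :=
  ∀ (V W : Type) [Finite V] [Finite W] (G : SimpleGraph V) (H : SimpleGraph W),
    G.IsContained H → f V G ≤ f W H

/-- The value on a disjoint union is at most the larger of the two values. -/
def UnionClosed (f : Param) : Prop :=
  ∀ (V W : Type) [Finite V] [Finite W] (G : SimpleGraph V) (H : SimpleGraph W),
    f (V ⊕ W) (G.sum H) ≤ max (f V G) (f W H)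

end Pool.Agent.Lib.MP_d92bf9_co
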