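import Pool.Agent.Lib.MP_d92bf9_co.Band
import Pool.Agent.Lib.MP_d92bf9_co.H5Defs

/-! The number of edges to delete per component to reach bandwidth at most `c`. -/

namespace Pool.Agent.Lib.MP_d92bf9_co.H5

open SimpleGraph

variable {V W : Type}

/-- The members of `F` that meet the component of `v`. -/
def near (G : SimpleGraph V) (F : Set (Sym2 V)) (v : V) : Set (Sym2 V) :=
  {e | e ∈ F ∧ ∃ w ∈ e, G.Reachable v w}

def Good (c : ℕ) (G : SimpleGraph V) (k : ℕ) : Prop :=
  ∃ F : Set (Sym2 V), BW (G.deleteEdges F) c ∧ ∀ v, (near G F v).ncard ≤ k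

noncomputable def compParam (c : ℕ) : Param := fun _ _ G => sInf {k | Good c G k}

lemma good_of_del {c : ℕ} [Finite V] (G : SimpleGraph V) : Good c G (delParam c V G) := by
  obtain ⟨F, hF, h⟩ := del_spec c V G
  refine ⟨F, h, fun v => ?_⟩
  rw [← hF, ← Set.ncard_coe_finset]
  exact Set.ncard_le_ncard (fun e he => he.1) F.finite_toSet

lemma comp_le {c k : ℕ} [Finite V] {G : SimpleGraph V} (h : Good c G k) : compParam c V G ≤ k :=
  Nat.sInf_le h

lemma comp_spec (c : ℕ) [Finite V] (G : SimpleGraph V) : Good c G (compParam c V G) :=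
  Nat.sInf_mem (s := {k | Good c G k}) ⟨_, good_of_del G⟩

lemma comp_mono (c : ℕ) : MonotoneParam (compParam c) := by
  rintro V W _ _ G H ⟨φ⟩
  obtain ⟨F, ⟨τ, h1, h2⟩, h3⟩ := comp_spec c H
  refine comp_le ⟨Sym2.map φ ⁻¹' F, ⟨fun v => τ (φ v), h1.comp φ.injective, fun u v huv => ?_⟩,
    fun v => le_trans ?_ (h3 (φ v))⟩
  · rw [deleteEdges_adj] at huv
    exact h2 _ _ (deleteEdges_adj.2 ⟨φ.toHom.map_adj huv.1, fun hc => huv.2 hc⟩)
  · refine Set.ncard_le_ncard_of_injOn (Sym2.map φ) ?_ (Sym2.map.injective φ.injective).injOn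
    rintro e ⟨he, w, hw, hr⟩
    exact ⟨he, φ w, Sym2.mem_map.2 ⟨w, hw, rfl⟩, hr.map φ.toHom⟩

lemma comp_iso (c : ℕ) : IsoInvariant (compParam c) := by
  rintro V W _ _ G H ⟨φ⟩
  exact le_antisymm (comp_mono c V W G H ⟨φ.toCopy⟩) (comp_mono c W V H G ⟨φ.symm.toCopy⟩)

lemma bw_of_fibres [Finite V] {G : SimpleGraph V} {b : ℕ} (p : V → ℕ)
    (hp : ∀ u v, G.Adj u v → p u = p v) (τ : V → ℤ) (h1 : ∀ u v, p u = p v → τ u = τ v → u = v)
    (h2 : ∀ u v, G.Adj u v → τ u ≤ τ v + b) : BW G b := by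
  obtain ⟨M, hM⟩ := (Set.finite_range fun v => |τ v|).bddAbove
  have hM' : ∀ v, |τ v| ≤ M := fun v => hM ⟨v, rfl⟩
  refine ⟨fun v => τ v + (2 * M + 1) * p v, fun u v huv => ?_, fun u v huv => ?_⟩
  · have a1 := abs_le.1 (hM' u)
    have a2 := abs_le.1 (hM' v)
    simp only at huv
    have hpp : p u = p v := by
      rcases lt_trichotomy (p u) (p v) with k | k | k
      · have : (p u : ℤ) + 1 ≤ p v := by exact_mod_cast k
        nlinarith
      · exact k
      · have : (p v : ℤ) + 1 ≤ p u := by exact_mod_cast k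
        nlinarith
    rw [hpp] at huv
    exact h1 u v hpp (by linarith)
  · have := h2 u v huv
    simp only [hp u v huv]
    linarith

lemma reach_inl {G : SimpleGraph V} {H : SimpleGraph W} {v : V} {x : V ⊕ W}
    (h : (G.sum H).Reachable (.inl v) x) : ∃ w, x = .inl w ∧ G.Reachable v w := by
  rw [reachable_iff_reflTransGen] at h
  induction h with
  | refl => exact ⟨v, rfl, .refl _⟩
  | @tail y z _ hyz ih =>
    obtain ⟨w, rfl, hw⟩ := ih
    cases z with
    | inl z => exact ⟨z, rfl, hw.trans (Adj.reachable (by simpa using hyz))⟩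
    | inr z => simp at hyz

lemma reach_inr {G : SimpleGraph V} {H : SimpleGraph W} {v : W} {x : V ⊕ W}
    (h : (G.sum H).Reachable (.inr v) x) : ∃ w, x = .inr w ∧ H.Reachable v w := by
  rw [reachable_iff_reflTransGen] at h
  induction h with
  | refl => exact ⟨v, rfl, .refl _⟩
  | @tail y z _ hyz ih =>
    obtain ⟨w, rfl, hw⟩ := ih
    cases z with
    | inr z => exact ⟨z, rfl, hw.trans (Adj.reachable (by simpa using hyz))⟩
    | inl z => simp at hyz

lemma comp_union (c : ℕ) : UnionClosed (compParam c) := by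
  intro V W _ _ G H
  obtain ⟨F, ⟨τ, h1, h2⟩, h3⟩ := comp_spec c G
  obtain ⟨F', ⟨τ', h1', h2'⟩, h3'⟩ := comp_spec c H
  refine comp_le ⟨Sym2.map .inl '' F ∪ Sym2.map .inr '' F',
    bw_of_fibres (Sum.elim (fun _ => 0) fun _ => 1) ?_ (Sum.elim τ τ') ?_ ?_, ?_⟩
  · rintro (u | u) (v | v) h <;> simp_all
  · rintro (u | u) (v | v) h h' <;> simp at h h' ⊢
    exacts [h1 h', h1' h']
  · rintro (u | u) (v | v) h <;> rw [deleteEdges_adj] at h
    · exact h2 u v (deleteEdges_adj.2 ⟨by simpa using h.1, fun k => h.2 (.inl ⟨_, k, rfl⟩)⟩)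
    · simp at h
    · simp at h
    · exact h2' u v (deleteEdges_adj.2 ⟨by simpa using h.1, fun k => h.2 (.inr ⟨_, k, rfl⟩)⟩)
  · rintro (v | v)
    · refine le_trans ?_ ((h3 v).trans (le_max_left _ _))
      refine le_trans (Set.ncard_le_ncard (t := Sym2.map .inl '' near G F v) ?_)
        (Set.ncard_image_le)
      rintro e ⟨he, x, hx, hr⟩
      obtain ⟨w, rfl, hw⟩ := reach_inl hr
      rcases he with ⟨e, he, rfl⟩ | ⟨e, he, rfl⟩
      · obtain ⟨y, hy, k⟩ := Sym2.mem_map.1 hx
        exact ⟨e, ⟨he, w, Sum.inl_injective k ▸ hy, hw⟩, rfl⟩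
      · obtain ⟨y, hy, k⟩ := Sym2.mem_map.1 hx
        simp at k
    · refine le_trans ?_ ((h3' v).trans (le_max_right _ _))
      refine le_trans (Set.ncard_le_ncard (t := Sym2.map .inr '' near H F' v) ?_)
        (Set.ncard_image_le)
      rintro e ⟨he, x, hx, hr⟩
      obtain ⟨w, rfl, hw⟩ := reach_inr hr
      rcases he with ⟨e, he, rfl⟩ | ⟨e, he, rfl⟩
      · obtain ⟨y, hy, k⟩ := Sym2.mem_map.1 hx
        simp at k
      · obtain ⟨y, hy, k⟩ := Sym2.mem_map.1 hx
        exact ⟨e, ⟨he, w, Sum.inr_injective k ▸ hy, hw⟩, rfl⟩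

lemma reach_del {G : SimpleGraph V} (a b : V) {v w : V} (h : G.Reachable v w) :
    (G.deleteEdges {s(a, b)}).Reachable v w ∨ (G.deleteEdges {s(a, b)}).Reachable a w ∨
      (G.deleteEdges {s(a, b)}).Reachable b w := by
  rw [reachable_iff_reflTransGen] at h
  induction h with
  | refl => exact .inl (.refl _)
  | @tail y z _ hyz ih =>
    by_cases he : s(y, z) = s(a, b)
    · rcases Sym2.eq_iff.1 he with ⟨-, rfl⟩ | ⟨-, rfl⟩
      exacts [.inr (.inr (.refl _)), .inr (.inl (.refl _))]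
    · have : (G.deleteEdges {s(a, b)}).Reachable y z :=
        Adj.reachable (deleteEdges_adj.2 ⟨hyz, he⟩)
      exact ih.imp (·.trans this) (Or.imp (·.trans this) (·.trans this))

lemma comp_zero {c : ℕ} [Finite V] {G : SimpleGraph V} (h : BW G c) : compParam c V G ≤ 0 :=
  (comp_le (good_of_del G)).trans (del_zero h)

lemma comp_continuous (c : ℕ) : ContinuousParam (compParam c) := by
  classical
  refine ⟨fun k => 3 * k + 1, fun V _ G e _ => ?_, fun V _ G v hv => ?_⟩
  · induction e using Sym2.ind with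
    | _ a b =>
    obtain ⟨F, h, h3⟩ := comp_spec c (G.deleteEdges {s(a, b)})
    rw [deleteEdges_deleteEdges] at h
    refine comp_le ⟨_, h, fun v => ?_⟩
    set G' := G.deleteEdges {s(a, b)}
    have h4 : near G ({s(a, b)} ∪ F) v ⊆
        {s(a, b)} ∪ (near G' F v ∪ (near G' F a ∪ near G' F b)) := by
      rintro e ⟨he | he, w, hw, hr⟩
      · exact .inl he
      · exact .inr ((reach_del a b hr).imp (fun k => ⟨he, w, hw, k⟩)
          (Or.imp (fun k => ⟨he, w, hw, k⟩) fun k => ⟨he, w, hw, k⟩))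
    have h5 := Set.ncard_le_ncard h4
    have h6 := Set.ncard_union_le {s(a, b)} (near G' F v ∪ (near G' F a ∪ near G' F b))
    have h7 := Set.ncard_union_le (near G' F v) (near G' F a ∪ near G' F b)
    have h8 := Set.ncard_union_le (near G' F a) (near G' F b)
    have := h3 v
    have := h3 a
    have := h3 b
    rw [Set.ncard_singleton] at h6
    simp only
    omega
  · have h1 := comp_union c {w : V // w ≠ v} Unit (G.induce {w | w ≠ v}) ⊥
    have h2 : compParam c Unit ⊥ ≤ 0 :=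
      comp_zero ⟨fun _ => 0, fun _ _ _ => rfl, fun _ _ h => h.elim⟩
    have h3 := comp_mono c V _ G ((G.induce {w | w ≠ v}).sum (⊥ : SimpleGraph Unit))
      ⟨⟨⟨fun x => if h : x = v then .inr () else .inl ⟨x, h⟩, fun {x y} hxy => by
        have hx : x ≠ v := fun k => hv _ (k ▸ hxy)
        have hy : y ≠ v := fun k => hv _ (k ▸ hxy.symm)
        simpa [hx, hy] using hxy⟩, fun x y hxy => by
        by_cases hx : x = v <;> by_cases hy : y = v <;> simp_all⟩⟩
    have h4 := h3.trans h1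
    simp only
    omega

lemma bw_boundedBy_comp (c : ℕ) : BoundedBy bandwidth (compParam c) := by
  classical
  refine ⟨fun k => 2 ^ k * (c + 1), fun V _ G => ?_⟩
  obtain ⟨F, h, h3⟩ := comp_spec c G
  rw [bw_le_iff]
  have key : ∀ C : G.ConnectedComponent, ∃ τ : V → ℤ, Function.Injective τ ∧
      ∀ u v, G.connectedComponentMk u = C → G.Adj u v →
        τ u ≤ τ v + (2 ^ compParam c V G * (c + 1) : ℕ) := by
    intro C
    obtain ⟨x, rfl⟩ := C.exists_rep
    let GC : SimpleGraph V := ⟨fun u v => G.Adj u v ∧ G.Reachable x u,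
      ⟨fun _ _ k => ⟨k.1.symm, k.2.trans k.1.reachable⟩⟩, ⟨fun _ k => G.irrefl k.1⟩⟩
    have h4 : BW (GC.deleteEdges (near G F x).toFinite.toFinset) c := by
      refine h.mono (fun u v k => ?_) le_rfl
      rw [deleteEdges_adj] at k ⊢
      exact ⟨k.1.1, fun j => k.2 (by simpa using ⟨j, u, by simp, k.1.2⟩)⟩
    obtain ⟨τ, a1, a2⟩ := (BW.add_edges _ h4).mono le_rfl (Nat.mul_le_mul_right (c + 1)
      (Nat.pow_le_pow_right two_pos ((Set.ncard_eq_toFinset_card _ _).ge.trans (h3 x))))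
    exact ⟨τ, a1, fun u v k j => a2 u v ⟨j, (ConnectedComponent.exact k).symm⟩⟩
  choose τ a1 a2 using key
  obtain ⟨q, hq⟩ := Countable.exists_injective_nat G.ConnectedComponent
  refine bw_of_fibres (fun v => q (G.connectedComponentMk v))
    (fun u v k => congrArg q (ConnectedComponent.sound k.reachable))
    (fun v => τ (G.connectedComponentMk v) v) (fun u v k j => ?_) fun u v k => ?_
  · rw [← hq k] at j
    exact a1 _ j
  · rw [← ConnectedComponent.sound k.reachable]
    exact a2 _ u v rfl k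

/-- A power of a path. -/
def ppow (N m : ℕ) : SimpleGraph (Fin N × Fin (m + 2)) where
  Adj a b := a ≠ b ∧ |((a.1 : ℤ) * (m + 2) + a.2) - ((b.1 : ℤ) * (m + 2) + b.2)| ≤ m + 1
  symm := ⟨fun _ _ h => ⟨h.1.symm, by rw [abs_sub_comm]; exact h.2⟩⟩
  loopless := ⟨fun _ h => h.1 rfl⟩

lemma cliques_le (N m : ℕ) : cliques N (m + 2) ≤ ppow N m := by
  rintro ⟨i, a⟩ ⟨j, b⟩ ⟨h, h'⟩
  simp only at h
  subst h
  have := a.2
  have := b.2
  exact ⟨h', abs_le.2 ⟨by simp only; omega, by simp only; omega⟩⟩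

lemma ppow_reach (N m : ℕ) (x : Fin (N + 1) × Fin (m + 2)) :
    (ppow (N + 1) m).Reachable (0, 0) x := by
  have h0 : ∀ (i : Fin (N + 1)) (a b : Fin (m + 2)), (ppow (N + 1) m).Reachable (i, a) (i, b) := by
    intro i a b
    by_cases h : a = b
    · rw [h]
    · exact (cliques_le _ _ (show (cliques (N + 1) (m + 2)).Adj (i, a) (i, b) from
        ⟨rfl, by simpa using h⟩)).reachable
  obtain ⟨i, a⟩ := x
  refine Reachable.trans ?_ (h0 i 0 a)
  induction i using Fin.induction with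
  | zero => rfl
  | succ i ih =>
    refine ih.trans ((h0 _ _ (Fin.last _)).trans (Adj.reachable ⟨?_, ?_⟩))
    · intro k
      exact absurd (congrArg Prod.fst k) (Fin.castSucc_lt_succ (i := i)).ne
    · simp only [Fin.val_castSucc, Fin.val_last, Fin.val_succ, Fin.val_zero]
      push_cast
      rw [abs_le]
      constructor <;> nlinarith

lemma comp_not_boundedBy (c : ℕ) : ¬ BoundedBy (compParam c) bandwidth := by
  rintro ⟨h, hh⟩
  obtain ⟨M, hM⟩ : ∃ M, ∀ k ≤ c + 1, h k ≤ M :=
    ⟨(Finset.range (c + 2)).sup h, fun k hk => Finset.le_sup (Finset.mem_range.mpr (by omega))⟩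
  have h1 := hh _ (ppow (M + 1) c)
  have h2 := cliques_del (M + 1) c
  have h3 : BW (ppow (M + 1) c) (c + 1) := by
    refine ⟨fun a => (a.1 : ℤ) * (c + 2) + a.2, ?_, fun a b k => ?_⟩
    · rintro ⟨i, a⟩ ⟨j, b⟩ k
      have := a.2
      have := b.2
      simp only at k
      have hij : (i : ℤ) = j := by
        rcases lt_trichotomy (i : ℤ) j with l | l | l
        · nlinarith
        · exact l
        · nlinarith
      rw [hij] at k
      exact Prod.ext (Fin.ext (by exact_mod_cast hij)) (Fin.ext (by simp only; omega))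
    · have := abs_le.1 k.2
      push_cast
      linarith
  have h4 := hM _ ((bw_le_iff _ _).mpr h3)
  obtain ⟨F, h5, h6⟩ := comp_spec c (ppow (M + 1) c)
  have h7 : near (ppow (M + 1) c) F (0, 0) = F :=
    Set.ext fun e => ⟨fun k => k.1, fun k => ⟨k, e.out.1, Sym2.out_fst_mem e, ppow_reach _ _ _⟩⟩
  have h8 := del_le (c := c) (G := cliques (M + 1) (c + 2)) F.toFinite.toFinset
    (h5.mono (fun u v k => by
      rw [deleteEdges_adj] at k ⊢
      exact ⟨cliques_le _ _ k.1, by simpa using k.2⟩) le_rfl)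
  have h9 := h6 (0, 0)
  rw [h7, Set.ncard_eq_toFinset_card] at h9
  omega

lemma reducible_comp {c k : ℕ} [Finite V] {T : Trigraph V} (h : Reducible (delParam c) k V T) :
    Reducible (compParam c) k V T := by
  induction h with
  | last V T h1 h2 => exact .last V T h1 ((comp_le (good_of_del _)).trans h2)
  | step V T u v h1 h2 _ ih => exact .step V T u v h1 ((comp_le (good_of_del _)).trans h2) ih

end Pool.Agent.Lib.MP_d92bf9_co.H5
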