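import Pool.Agent.Lib.MP_d92bf9_co.Band

namespace Pool.Agent.Lib.MP_d92bf9_co

open SimpleGraph

variable {V : Type}

/-- Red pairs of a partition. -/
def RedP (G : SimpleGraph V) (s : V → V → Prop) (x y : V) : Prop :=
  ¬ s x y ∧ (∃ x' y', s x x' ∧ s y y' ∧ G.Adj x' y') ∧ (∃ x' y', s x x' ∧ s y y' ∧ ¬ G.Adj x' y')

def OK (G : SimpleGraph V) (c : ℕ) (s : V → V → Prop) : Prop :=
  ∃ τ : V → ℤ, (∀ x y, τ x = τ y ↔ s x y) ∧ ∀ x y, RedP G s x y → τ x ≤ τ y + c

def Merge (s : V → V → Prop) (a b : V) (x y : V) : Prop :=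
  s x y ∨ (s x a ∧ s y b) ∨ (s x b ∧ s y a)

def Step (G : SimpleGraph V) (c : ℕ) (s t : V → V → Prop) : Prop :=
  (∃ a b, ¬ s a b ∧ ∀ x y, t x y ↔ Merge s a b x y) ∧ OK G c t

def Reach (G : SimpleGraph V) (c : ℕ) : (V → V → Prop) → (V → V → Prop) → Prop :=
  Relation.ReflTransGen (Step G c)

lemma OK.equiv {G : SimpleGraph V} {c : ℕ} {s : V → V → Prop} (h : OK G c s) : Equivalence s := by
  obtain ⟨τ, h1, -⟩ := h
  refine ⟨fun x => (h1 x x).mp rfl, fun h => (h1 _ _).mp ((h1 _ _).mpr h).symm,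
    fun h k => (h1 _ _).mp (((h1 _ _).mpr h).trans ((h1 _ _).mpr k))⟩

lemma Reach.ok {G : SimpleGraph V} {c : ℕ} {s t : V → V → Prop} (h : Reach G c s t)
    (hs : OK G c s) : OK G c t := by
  induction h with
  | refl => exact hs
  | tail _ h2 _ => exact h2.2

lemma merge_equiv {s : V → V → Prop} (hs : Equivalence s) (a b : V) : Equivalence (Merge s a b) := by
  refine ⟨fun x => Or.inl (hs.refl x), ?_, ?_⟩
  · rintro x y (h | ⟨h1, h2⟩ | ⟨h1, h2⟩)
    · exact Or.inl (hs.symm h)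
    · exact Or.inr (Or.inr ⟨h2, h1⟩)
    · exact Or.inr (Or.inl ⟨h2, h1⟩)
  · rintro x y z (h | ⟨h1, h2⟩ | ⟨h1, h2⟩) (k | ⟨k1, k2⟩ | ⟨k1, k2⟩)
    · exact Or.inl (hs.trans h k)
    · exact Or.inr (Or.inl ⟨hs.trans h k1, k2⟩)
    · exact Or.inr (Or.inr ⟨hs.trans h k1, k2⟩)
    · exact Or.inr (Or.inl ⟨h1, hs.trans (hs.symm k) h2⟩)
    · exact Or.inr (Or.inl ⟨h1, k2⟩)
    · exact Or.inl (hs.trans h1 (hs.symm k2))
    · exact Or.inr (Or.inr ⟨h1, hs.trans (hs.symm k) h2⟩)
    · exact Or.inl (hs.trans h1 (hs.symm k2))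
    · exact Or.inr (Or.inr ⟨h1, k2⟩)

lemma coarsen [Finite V] {G : SimpleGraph V} {c : ℕ} {s' : V → V → Prop} (hs' : Equivalence s') :
    ∀ (n : ℕ) (s : V → V → Prop), Equivalence s → (∀ x y, s x y → s' x y) →
      {p : V × V | ¬ s p.1 p.2}.ncard = n →
      (∀ t, Equivalence t → (∀ x y, s x y → t x y) → (∀ x y, t x y → s' x y) → OK G c t) →
      Reach G c s s' := by
  intro n
  induction n using Nat.strong_induction_on with
  | _ n ih =>
  intro s hs hle hn hok
  by_cases h : ∀ x y, s' x y → s x y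
  · have : s = s' := by
      funext x y
      exact propext ⟨hle x y, h x y⟩
    rw [this]
    exact Relation.ReflTransGen.refl
  · push Not at h
    obtain ⟨a, b, hab, hnab⟩ := h
    have h1 : ∀ x y, s x y → Merge s a b x y := fun x y h => Or.inl h
    have h2 : ∀ x y, Merge s a b x y → s' x y := by
      rintro x y (h | ⟨h1, h2⟩ | ⟨h1, h2⟩)
      · exact hle _ _ h
      · exact hs'.trans (hle _ _ h1) (hs'.trans hab (hs'.symm (hle _ _ h2)))
      · exact hs'.trans (hle _ _ h1) (hs'.trans (hs'.symm hab) (hs'.symm (hle _ _ h2)))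
    refine Relation.ReflTransGen.head (b := Merge s a b)
      ⟨⟨a, b, hnab, fun _ _ => Iff.rfl⟩, hok _ (merge_equiv hs a b) h1 h2⟩ ?_
    refine ih _ ?_ _ (merge_equiv hs a b) h2 rfl
      (fun t ht k1 k2 => hok t ht (fun x y h => k1 _ _ (h1 _ _ h)) k2)
    rw [← hn]
    apply Set.ncard_lt_ncard _ (Set.toFinite _)
    refine ⟨fun p hp hc => hp (h1 _ _ hc), fun hc => ?_⟩
    exact hc (show (a, b) ∈ {p : V × V | ¬ s p.1 p.2} from hnab)
      (Or.inr (Or.inl ⟨hs.refl a, hs.refl b⟩))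

/-- The quotient trigraph. -/
def quot (G : SimpleGraph V) {W : Type} (p : V → W) : Trigraph W where
  black :=
    { Adj := fun a b => a ≠ b ∧ ∀ x y, p x = a → p y = b → G.Adj x y
      symm := ⟨fun _ _ h => ⟨h.1.symm, fun x y hx hy => (h.2 y x hy hx).symm⟩⟩
      loopless := ⟨fun _ h => h.1 rfl⟩ }
  red :=
    { Adj := fun a b => a ≠ b ∧ (∃ x y, p x = a ∧ p y = b ∧ G.Adj x y) ∧
        (∃ x y, p x = a ∧ p y = b ∧ ¬ G.Adj x y)
      symm := ⟨fun _ _ ⟨h1, ⟨x, y, h2, h3, h4⟩, ⟨x', y', h5, h6, h7⟩⟩ =>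
        ⟨h1.symm, ⟨y, x, h3, h2, h4.symm⟩, ⟨y', x', h6, h5, fun k => h7 k.symm⟩⟩⟩
      loopless := ⟨fun _ h => h.1 rfl⟩ }

lemma quot_id (G : SimpleGraph V) : quot G id = ⟨G, ⊥⟩ := by
  unfold quot
  congr 1
  · ext a b
    constructor
    · intro h; exact h.2 a b rfl rfl
    · intro h
      refine ⟨h.ne, ?_⟩
      rintro x y rfl rfl
      exact h
  · ext a b
    simp only [id_eq, bot_adj, iff_false]
    rintro ⟨-, ⟨x, y, rfl, rfl, h⟩, ⟨x', y', rfl, rfl, h'⟩⟩
    exact h' h

lemma quot_bw {G : SimpleGraph V} {c : ℕ} {W : Type} {p : V → W} (hp : Function.Surjective p)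
    {s : V → V → Prop} (hs : ∀ x y, p x = p y ↔ s x y) (h : OK G c s) : BW (quot G p).red c := by
  obtain ⟨τ, h1, h2⟩ := h
  choose q hq using hp
  refine ⟨fun a => τ (q a), ?_, ?_⟩
  · intro a b hab
    rw [← hq a, ← hq b, hs, ← h1]
    exact hab
  · rintro a b ⟨k1, ⟨x, y, k2, k3, k4⟩, ⟨x', y', k5, k6, k7⟩⟩
    apply h2
    refine ⟨fun hc => k1 ?_, ⟨x, y, ?_, ?_, k4⟩, ⟨x', y', ?_, ?_, k7⟩⟩
    · rw [← hq a, ← hq b, hs]; exact hc
    all_goals rw [← hs, hq]; simp [*]

open Classical in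
noncomputable def mergeMap {W : Type} (p : V → W) {u v : W} (h : u ≠ v) (x : V) :
    {w : W // w ≠ v} := if hx : p x = v then ⟨u, h⟩ else ⟨p x, hx⟩

lemma mergeMap_eq {W : Type} (p : V → W) {u v : W} (h : u ≠ v) (x : V) (a : {w : W // w ≠ v}) :
    mergeMap p h x = a ↔ p x = a.1 ∨ (a.1 = u ∧ p x = v) := by
  unfold mergeMap
  split_ifs with hx
  · rw [Subtype.ext_iff]
    constructor
    · intro k; exact Or.inr ⟨k.symm, hx⟩
    · rintro (k | k)
      · exact absurd (k.symm.trans hx) a.2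
      · exact k.1.symm
  · rw [Subtype.ext_iff]
    constructor
    · intro k; exact Or.inl k
    · rintro (k | k)
      · exact k
      · exact absurd k.2 hx

lemma contract_quot (G : SimpleGraph V) {W : Type} {p : V → W} (hp : Function.Surjective p)
    {u v : W} (h : u ≠ v) : (quot G p).contract u v = quot G (mergeMap p h) := by
  have blk : ∀ a b : {w : W // w ≠ v}, a ≠ b → b.1 ≠ u →
      (((a.1 = u ∧ (quot G p).black.Adj u b.1 ∧ (quot G p).black.Adj v b.1) ∨
        (a.1 ≠ u ∧ b.1 ≠ u ∧ (quot G p).black.Adj a.1 b.1)) ↔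
      ∀ x y, mergeMap p h x = a → mergeMap p h y = b → G.Adj x y) := by
    intro a b hab hb
    simp only [mergeMap_eq, hb, false_and, or_false]
    by_cases ha : a.1 = u
    · simp only [ha, true_and, ne_eq, not_true_eq_false, false_and, or_false]
      constructor
      · rintro ⟨k1, k2⟩ x y (hx | hx) hy
        · exact k1.2 x y hx hy
        · exact k2.2 x y hx hy
      · intro k
        exact ⟨⟨fun e => hb e.symm, fun x y hx hy => k x y (Or.inl hx) hy⟩,
          ⟨fun e => b.2 e.symm, fun x y hx hy => k x y (Or.inr hx) hy⟩⟩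
    · simp only [ha, false_and, or_false, ne_eq, not_false_eq_true, true_and, false_or]
      exact ⟨fun k => k.2.2, fun k => ⟨hb, fun e => hab (Subtype.ext e), k⟩⟩
  have edge : ∀ a b : W, a ≠ b → (((quot G p).black.Adj a b ∨ (quot G p).red.Adj a b) ↔
      ∃ x y, p x = a ∧ p y = b ∧ G.Adj x y) := by
    intro a b hab
    constructor
    · rintro (k | k)
      · obtain ⟨x, hx⟩ := hp a
        obtain ⟨y, hy⟩ := hp b
        exact ⟨x, y, hx, hy, k.2 x y hx hy⟩
      · exact k.2.1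
    · intro k
      by_cases k2 : ∃ x y, p x = a ∧ p y = b ∧ ¬ G.Adj x y
      · exact Or.inr ⟨hab, k, k2⟩
      · push Not at k2
        exact Or.inl ⟨hab, k2⟩
  have rd : ∀ a b : {w : W // w ≠ v}, a ≠ b → b.1 ≠ u →
      (((a.1 = u ∧ ((quot G p).black.Adj u b.1 ∨ (quot G p).red.Adj u b.1 ∨
        (quot G p).black.Adj v b.1 ∨ (quot G p).red.Adj v b.1) ∧
        ¬ ((quot G p).black.Adj u b.1 ∧ (quot G p).black.Adj v b.1)) ∨
        (a.1 ≠ u ∧ b.1 ≠ u ∧ (quot G p).red.Adj a.1 b.1)) ↔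
      ((∃ x y, mergeMap p h x = a ∧ mergeMap p h y = b ∧ G.Adj x y) ∧
        (∃ x y, mergeMap p h x = a ∧ mergeMap p h y = b ∧ ¬ G.Adj x y))) := by
    intro a b hab hb
    by_cases ha : a.1 = u
    · have b1 := blk a b hab hb
      simp only [ha, true_and, ne_eq, not_true_eq_false, false_and, or_false] at b1 ⊢
      rw [b1, ← or_assoc, edge u b.1 (fun e => hb e.symm), edge v b.1 (fun e => b.2 e.symm)]
      push Not
      refine and_congr_left' ?_
      simp only [mergeMap_eq, hb, ha, false_and, or_false, true_and]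
      constructor
      · rintro (⟨x, y, k1, k2, k3⟩ | ⟨x, y, k1, k2, k3⟩)
        · exact ⟨x, y, Or.inl k1, k2, k3⟩
        · exact ⟨x, y, Or.inr k1, k2, k3⟩
      · rintro ⟨x, y, k1 | k1, k2, k3⟩
        · exact Or.inl ⟨x, y, k1, k2, k3⟩
        · exact Or.inr ⟨x, y, k1, k2, k3⟩
    · simp only [mergeMap_eq, hb, ha, false_and, or_false, ne_eq, not_false_eq_true, true_and,
        false_or]
      exact ⟨fun k => k.2, fun k => ⟨fun e => hab (Subtype.ext e), k⟩⟩
  unfold Trigraph.contract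
  conv_rhs => unfold quot
  congr 1
  · ext a b
    rw [fromRel_adj]
    refine and_congr_right fun hab => ?_
    by_cases hb : b.1 = u
    · have ha : a.1 ≠ u := fun e => hab (Subtype.ext (e.trans hb.symm))
      rw [blk b a hab.symm ha]
      simp only [ha, hb, false_and, ne_eq, not_true_eq_false, and_false, or_false, false_or]
      exact ⟨fun k x y hx hy => (k y x hy hx).symm, fun k x y hx hy => (k y x hy hx).symm⟩
    · rw [← blk a b hab hb]
      constructor
      · rintro (k | k | k)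
        · exact k
        · exact absurd k.1 hb
        · exact Or.inr ⟨k.2.1, k.1, k.2.2.symm⟩
      · exact fun k => Or.inl k
  · ext a b
    rw [fromRel_adj]
    refine and_congr_right fun hab => ?_
    by_cases hb : b.1 = u
    · have ha : a.1 ≠ u := fun e => hab (Subtype.ext (e.trans hb.symm))
      rw [rd b a hab.symm ha]
      simp only [ha, hb, false_and, ne_eq, not_true_eq_false, and_false, or_false, false_or]
      constructor
      · rintro ⟨⟨x, y, k1, k2, k3⟩, ⟨x', y', k4, k5, k6⟩⟩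
        exact ⟨⟨y, x, k2, k1, k3.symm⟩, ⟨y', x', k5, k4, fun e => k6 e.symm⟩⟩
      · rintro ⟨⟨x, y, k1, k2, k3⟩, ⟨x', y', k4, k5, k6⟩⟩
        exact ⟨⟨y, x, k2, k1, k3.symm⟩, ⟨y', x', k5, k4, fun e => k6 e.symm⟩⟩
    · rw [← rd a b hab hb]
      constructor
      · rintro (k | k | k)
        · exact k
        · exact absurd k.1 hb
        · exact Or.inr ⟨k.2.1, k.1, k.2.2.symm⟩
      · exact fun k => Or.inl k

theorem reducible_of_reach [Nonempty V] {G : SimpleGraph V} {c : ℕ} {s : V → V → Prop}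
    (h : Reach G c s (fun _ _ => True)) :
    OK G c s → ∀ (W : Type) [Finite W] (p : V → W), Function.Surjective p →
      (∀ x y, p x = p y ↔ s x y) → Reducible (delParam c) 0 W (quot G p) := by
  induction h using Relation.ReflTransGen.head_induction_on with
  | refl =>
    intro hok W _ p hp hs
    refine Reducible.last W _ ?_ (del_zero (quot_bw hp hs hok))
    rw [Nat.card_eq_one_iff_unique]
    refine ⟨⟨fun a b => ?_⟩, ⟨p (Classical.arbitrary V)⟩⟩
    obtain ⟨x, rfl⟩ := hp a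
    obtain ⟨y, rfl⟩ := hp b
    exact (hs x y).mpr trivial
  | head hst _ ih =>
    intro hok W _ p hp hs
    obtain ⟨⟨a, b, hab, ht⟩, hok'⟩ := hst
    have huv : p a ≠ p b := fun e => hab ((hs a b).mp e)
    refine Reducible.step W _ (p a) (p b) huv (del_zero (quot_bw hp hs hok)) ?_
    rw [contract_quot G hp huv]
    apply ih hok'
    · intro w
      obtain ⟨x, hx⟩ := hp w.1
      exact ⟨x, (mergeMap_eq p huv x w).mpr (Or.inl hx)⟩
    · intro x y
      rw [ht, mergeMap_eq]
      unfold Merge mergeMap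
      simp only [← hs]
      split_ifs with hy
      · simp only [hy, true_and, and_true]
        constructor
        · rintro (k | k)
          · exact Or.inr (Or.inl k)
          · exact Or.inl k
        · rintro (k | k | k)
          · exact Or.inr k
          · exact Or.inl k
          · exact Or.inr k.1
      · simp only [hy, and_false, false_or]
        constructor
        · rintro (k | k)
          · exact Or.inl k
          · exact Or.inr ⟨k.2, k.1⟩
        · rintro (k | k)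
          · exact Or.inl k
          · exact Or.inr ⟨k.2, k.1⟩

end Pool.Agent.Lib.MP_d92bf9_co
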