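import Pool.Agent.Lib.MP_d92bf9_co.Reach

namespace Pool.Agent.Lib.MP_d92bf9_co

open SimpleGraph

variable {V : Type}

def Layering (G : SimpleGraph V) (lay : V → ℕ) : Prop := ∀ x y, G.Adj x y → lay x ≤ lay y + 1

lemma ok_extend [Finite V] {G : SimpleGraph V} {c m : ℕ} (hm : 2 * m ≤ c) {lay : V → ℕ}
    (hlay : Layering G lay) {s t : V → V → Prop} (hs : OK G c s) (ht : Equivalence t) (I : Set V)
    (h1 : ∀ x y, x ∉ I → (t x y ↔ s x y))
    (h2 : ∀ x x', s x x' → ∀ z ∈ I, (G.Adj x z ↔ G.Adj x' z))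
    (h3 : ∀ x ∈ I, ∀ y, t x y → y ∈ I ∧ lay x = lay y ∧ ∀ z, z ∉ I → (G.Adj x z ↔ G.Adj y z))
    (col : V → ℕ) (hc1 : ∀ x, col x < m)
    (hc2 : ∀ x ∈ I, ∀ y ∈ I, lay x = lay y → col x = col y → t x y) : OK G c t := by
  classical
  obtain ⟨τ, hτ1, hτ2⟩ := hs
  obtain ⟨B, hB⟩ := (Set.finite_range τ).bddAbove
  have hB' : ∀ x, τ x ≤ B := fun x => hB ⟨x, rfl⟩
  let idx : V → ℕ := fun x => sInf {k | ∃ y, t x y ∧ col y = k}
  have hidx : ∀ x, ∃ y, t x y ∧ col y = idx x := fun x =>
    Nat.sInf_mem (s := {k | ∃ y, t x y ∧ col y = k}) ⟨col x, x, ht.refl x, rfl⟩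
  have hidx1 : ∀ x, idx x < m := fun x => by
    obtain ⟨y, -, hy⟩ := hidx x
    rw [← hy]; exact hc1 y
  have hidx2 : ∀ x y, t x y → idx x = idx y := by
    intro x y hxy
    simp only [idx]
    congr 1
    ext k
    exact ⟨fun ⟨z, k1, k2⟩ => ⟨z, ht.trans (ht.symm hxy) k1, k2⟩,
      fun ⟨z, k1, k2⟩ => ⟨z, ht.trans hxy k1, k2⟩⟩
  have hout : ∀ x y, x ∉ I → t x y → y ∉ I := fun x y hx hxy hy =>
    hx (h3 y hy x (ht.symm hxy)).1
  have hmix : ∀ x y, x ∈ I → y ∉ I → ∀ x' y', t x x' → t y y' → (G.Adj x' y' ↔ G.Adj x y) := by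
    intro x y hx hy x' y' k1 k2
    rw [← (h3 x hx x' k1).2.2 y' (hout y y' hy k2), G.adj_comm, G.adj_comm x y]
    exact (h2 y y' ((h1 y y' hy).mp k2) x hx).symm
  refine ⟨fun x => if x ∈ I then B + 1 + ((lay x * m + idx x : ℕ) : ℤ) else τ x, ?_, ?_⟩
  · intro x y
    by_cases hx : x ∈ I <;> by_cases hy : y ∈ I
    · simp only [if_pos hx, if_pos hy]
      constructor
      · intro h
        have e : lay x * m + idx x = lay y * m + idx y := by
          have := add_left_cancel h
          exact_mod_cast this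
        have a1 := hidx1 x
        have a2 := hidx1 y
        have e1 : lay x = lay y := by
          have f1 : (lay x * m + idx x) / m = lay x := by
            rw [Nat.add_comm, Nat.add_mul_div_right _ _ (by omega), Nat.div_eq_of_lt a1]; simp
          have f2 : (lay y * m + idx y) / m = lay y := by
            rw [Nat.add_comm, Nat.add_mul_div_right _ _ (by omega), Nat.div_eq_of_lt a2]; simp
          rw [← f1, ← f2, e]
        rw [e1] at e
        have e2 : idx x = idx y := Nat.add_left_cancel e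
        obtain ⟨x', k1, k2⟩ := hidx x
        obtain ⟨y', k3, k4⟩ := hidx y
        have k5 := hc2 x' (h3 x hx x' k1).1 y' (h3 y hy y' k3).1
          (by rw [← (h3 x hx x' k1).2.1, ← (h3 y hy y' k3).2.1, e1]) (by rw [k2, k4, e2])
        exact ht.trans k1 (ht.trans k5 (ht.symm k3))
      · intro h
        rw [hidx2 x y h, (h3 x hx y h).2.1]
    · simp only [if_pos hx, if_neg hy]
      constructor
      · intro h
        have := hB' y
        omega
      · intro h
        exact absurd (h3 x hx y h).1 hy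
    · simp only [if_pos hy, if_neg hx]
      constructor
      · intro h
        have := hB' x
        omega
      · intro h
        exact absurd hy (hout x y hx h)
    · simp only [if_neg hy, if_neg hx]
      rw [hτ1, h1 x y hx]
  · rintro x y ⟨k0, ⟨x1, y1, k1, k2, k3⟩, ⟨x2, y2, k4, k5, k6⟩⟩
    by_cases hx : x ∈ I <;> by_cases hy : y ∈ I
    · simp only [if_pos hx, if_pos hy]
      have a1 := hlay x1 y1 k3
      rw [← (h3 x hx x1 k1).2.1, ← (h3 y hy y1 k2).2.1] at a1
      have a2 := hidx1 x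
      have a3 : lay x * m ≤ (lay y + 1) * m := Nat.mul_le_mul_right _ a1
      have a4 : lay x * m + idx x ≤ lay y * m + idx y + c := by
        rw [add_mul] at a3
        omega
      have a5 : ((lay x * m + idx x : ℕ) : ℤ) ≤ ((lay y * m + idx y + c : ℕ) : ℤ) := by
        exact_mod_cast a4
      rw [Nat.cast_add (lay y * m + idx y)] at a5
      linarith
    · exact absurd ((hmix x y hx hy x2 y2 k4 k5).mpr ((hmix x y hx hy x1 y1 k1 k2).mp k3)) k6
    · exact absurd ((hmix y x hy hx y2 x2 k5 k4).mpr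
        ((hmix y x hy hx y1 x1 k2 k1).mp k3.symm)).symm k6
    · simp only [if_neg hy, if_neg hx]
      apply hτ2
      exact ⟨fun k => k0 ((h1 x y hx).mpr k),
        ⟨x1, y1, (h1 _ _ hx).mp k1, (h1 _ _ hy).mp k2, k3⟩,
        ⟨x2, y2, (h1 _ _ hx).mp k4, (h1 _ _ hy).mp k5, k6⟩⟩

def Tgt (G : SimpleGraph V) (lay : V → ℕ) (I : Set V) (x y : V) : Prop :=
  x ∈ I ∧ y ∈ I ∧ lay x = lay y ∧ ∀ z, z ∉ I → (G.Adj x z ↔ G.Adj y z)

def Small (G : SimpleGraph V) (lay : V → ℕ) (I : Set V) : Prop :=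
  ∃ col : V → ℕ, (∀ x, col x < 64) ∧
    ∀ x ∈ I, ∀ y ∈ I, lay x = lay y → col x = col y → Tgt G lay I x y

lemma small_of_bdry {G : SimpleGraph V} {lay : V → ℕ} {I : Set V} (z : ℕ → Fin 6 → V)
    (hz : ∀ x ∈ I, ∀ y, y ∉ I → G.Adj x y → ∃ i, z (lay x) i = y) : Small G lay I := by
  classical
  let e := Fintype.equivFin (Fin 6 → Bool)
  refine ⟨fun x => e (fun i => decide (G.Adj x (z (lay x) i))), fun x => ?_, ?_⟩
  · have := (e (fun i => decide (G.Adj x (z (lay x) i)))).2
    simpa using this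
  · intro x hx y hy hl hc
    have h1 := e.injective (Fin.ext hc)
    have h2 : ∀ i, G.Adj x (z (lay x) i) ↔ G.Adj y (z (lay x) i) := by
      intro i
      have := congrFun h1 i
      rw [← hl] at this
      simpa using this
    refine ⟨hx, hy, hl, fun w hw => ⟨fun k => ?_, fun k => ?_⟩⟩
    · obtain ⟨i, rfl⟩ := hz x hx w hw k
      exact (h2 i).mp k
    · obtain ⟨i, rfl⟩ := hz y hy w hw k
      rw [← hl] at k ⊢
      exact (h2 i).mpr k

def Proc (G : SimpleGraph V) (lay : V → ℕ) (I : Set V) : Prop :=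
  ∀ s, OK G 258 s → (∀ x ∈ I, ∀ y, s x y → x = y) →
    (∀ x x', s x x' → ∀ z ∈ I, (G.Adj x z ↔ G.Adj x' z)) →
    Reach G 258 s (fun x y => s x y ∨ Tgt G lay I x y)

lemma proc_empty (G : SimpleGraph V) (lay : V → ℕ) : Proc G lay ∅ := by
  intro s _ _ _
  have : (fun x y => s x y ∨ Tgt G lay ∅ x y) = s := by
    funext x y
    simp [Tgt]
  rw [this]
  exact Relation.ReflTransGen.refl

lemma Tgt.mono {G : SimpleGraph V} {lay : V → ℕ} {I J : Set V} (h : I ⊆ J) {x y : V}
    (k : Tgt G lay I x y) : Tgt G lay J x y :=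
  ⟨h k.1, h k.2.1, k.2.2.1, fun z hz => k.2.2.2 z (fun e => hz (h e))⟩

lemma join_equiv {G : SimpleGraph V} {lay : V → ℕ} {I : Set V} {s : V → V → Prop}
    (hs : Equivalence s) (h : ∀ x ∈ I, ∀ y, s x y → x = y) :
    Equivalence (fun x y => s x y ∨ Tgt G lay I x y) := by
  refine ⟨fun x => Or.inl (hs.refl x), ?_, ?_⟩
  · rintro x y (k | k)
    · exact Or.inl (hs.symm k)
    · exact Or.inr ⟨k.2.1, k.1, k.2.2.1.symm, fun z hz => (k.2.2.2 z hz).symm⟩
  · rintro x y z (k | k) (l | l)
    · exact Or.inl (hs.trans k l)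
    · rw [← h y l.1 x (hs.symm k)]; exact Or.inr l
    · rw [← h y k.2.1 z l]; exact Or.inr k
    · exact Or.inr ⟨k.1, l.2.1, k.2.2.1.trans l.2.2.1,
        fun w hw => (k.2.2.2 w hw).trans (l.2.2.2 w hw)⟩

lemma combine [Finite V] {G : SimpleGraph V} {lay : V → ℕ} (hlay : Layering G lay)
    {I I1 I2 : Set V} (p1 : Proc G lay I1) (p2 : Proc G lay I2) (s1 : Small G lay I1)
    (s2 : Small G lay I2) (hd : Disjoint I1 I2) (h1 : I1 ⊆ I) (h2 : I2 ⊆ I)
    (hN : ∀ x ∈ I, ∀ y ∈ I, x ∉ I1 → x ∉ I2 → y ∉ I1 → y ∉ I2 → lay x = lay y → x = y) :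
    Proc G lay I := by
  classical
  intro s hs ht hh
  have r1 := p1 s hs (fun x hx => ht x (h1 hx)) (fun x x' k z hz => hh x x' k z (h1 hz))
  have o1 := r1.ok hs
  have r2 := p2 _ o1 (by
    rintro x hx y (k | k)
    · exact ht x (h2 hx) y k
    · exact absurd hx (Set.disjoint_left.mp hd k.1)) (by
    rintro x x' (k | k) z hz
    · exact hh x x' k z (h2 hz)
    · exact k.2.2.2 z (Set.disjoint_right.mp hd hz))
  have o2 := r2.ok o1
  refine (r1.trans r2).trans (coarsen (join_equiv hs.equiv ht) _ _ o2.equiv ?_ rfl ?_)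
  · rintro x y ((k | k) | k)
    · exact Or.inl k
    · exact Or.inr (k.mono h1)
    · exact Or.inr (k.mono h2)
  · intro t hte k1 k2
    obtain ⟨c1, a1, b1⟩ := s1
    obtain ⟨c2, a2, b2⟩ := s2
    refine ok_extend (m := 129) (by norm_num) hlay hs hte I ?_ hh ?_
      (fun x => if x ∈ I1 then c1 x else if x ∈ I2 then 64 + c2 x else 128) ?_ ?_
    · intro x y hx
      refine ⟨fun k => ?_, fun k => k1 _ _ (Or.inl (Or.inl k))⟩
      rcases k2 _ _ k with l | l
      · exact l
      · exact absurd l.1 hx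
    · intro x hx y k
      rcases k2 _ _ k with l | l
      · rw [← ht x hx y l]
        exact ⟨hx, rfl, fun _ _ => Iff.rfl⟩
      · exact l.2
    · intro x
      have := a1 x
      have := a2 x
      split_ifs <;> omega
    · intro x hx y hy hl hc
      have := a1 x
      have := a2 x
      have := a1 y
      have := a2 y
      split_ifs at hc with e1 e2 e3 e4 e5 e6 e7 e8
      · exact k1 _ _ (Or.inl (Or.inr (b1 x e1 y e2 hl hc)))
      · omega
      · omega
      · omega
      · exact k1 _ _ (Or.inr (b2 x e4 y e6 hl (by omega)))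
      · omega
      · omega
      · omega
      · rw [hN x hx y hy e1 e4 e7 e8 hl]
        exact hte.refl y

lemma ok_eq [Finite V] (G : SimpleGraph V) (c : ℕ) : OK G c (fun x y => x = y) := by
  refine ⟨fun v => ((Finite.equivFin V v : ℕ) : ℤ), fun u v => ⟨fun huv => ?_, fun h => by rw [h]⟩,
    ?_⟩
  · have : (Finite.equivFin V u : ℕ) = Finite.equivFin V v := by simpa using huv
    exact (Finite.equivFin V).injective (Fin.ext this)
  · rintro x y ⟨-, ⟨x1, y1, rfl, rfl, h⟩, ⟨x2, y2, rfl, rfl, h'⟩⟩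
    exact absurd h h'

lemma layers_reach [Finite V] {G : SimpleGraph V} {lay : V → ℕ} (hlay : Layering G lay) (h : ℕ) :
    Reach G 258 (fun x y => min (lay x) h = min (lay y) h) (fun _ _ => True) := by
  classical
  induction h with
  | zero =>
    have : (fun x y => min (lay x) 0 = min (lay y) 0) = (fun _ _ : V => True) := by
      funext x y; simp
    rw [this]
    exact Relation.ReflTransGen.refl
  | succ h ih =>
    refine Relation.ReflTransGen.trans ?_ ih
    refine coarsen (V := V) (s' := fun x y => min (lay x) h = min (lay y) h)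
      ⟨fun _ => rfl, fun k => k.symm, fun k l => k.trans l⟩ _
      (fun x y => min (lay x) (h + 1) = min (lay y) (h + 1))
      ⟨fun _ => rfl, fun k => k.symm, fun k l => k.trans l⟩ (fun x y k => by omega) rfl ?_
    intro t hte k1 k2
    refine ok_extend (m := 2) (lay := fun x => min (lay x) h) (by norm_num) ?_ (ok_eq G _) hte
      Set.univ (fun x y hx => absurd (Set.mem_univ x) hx) ?_ ?_
      (fun x => if h < lay x then 1 else 0) ?_ ?_
    · intro x y k
      have := hlay x y k
      simp only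
      omega
    · rintro x x' rfl z _; exact Iff.rfl
    · intro x _ y k
      exact ⟨Set.mem_univ _, k2 _ _ k, fun z hz => absurd (Set.mem_univ z) hz⟩
    · intro x; split_ifs <;> omega
    · intro x _ y _ hl hc
      apply k1
      split_ifs at hc <;> omega

theorem reducible_of_proc [Finite V] [Nonempty V] {G : SimpleGraph V} {lay : V → ℕ}
    (hlay : Layering G lay) (h : Proc G lay Set.univ) :
    Reducible (delParam 258) 0 V ⟨G, ⊥⟩ := by
  obtain ⟨B, hB⟩ := (Set.finite_range lay).bddAbove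
  have r1 := h _ (ok_eq G _) (fun x _ y k => k) (by rintro x x' rfl z _; exact Iff.rfl)
  have e : (fun x y => x = y ∨ Tgt G lay Set.univ x y) =
      (fun x y => min (lay x) B = min (lay y) B) := by
    funext x y
    have a1 : lay x ≤ B := hB ⟨x, rfl⟩
    have a2 : lay y ≤ B := hB ⟨y, rfl⟩
    rw [min_eq_left a1, min_eq_left a2]
    apply propext
    constructor
    · rintro (rfl | k)
      · rfl
      · exact k.2.2.1
    · intro k
      exact Or.inr ⟨trivial, trivial, k, fun z hz => absurd (Set.mem_univ z) hz⟩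
  rw [e] at r1
  rw [← quot_id]
  exact reducible_of_reach (r1.trans (layers_reach hlay B)) (ok_eq G _) V id
    Function.surjective_id (fun _ _ => Iff.rfl)

end Pool.Agent.Lib.MP_d92bf9_co
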